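import Mathlib

/-!
Definitions for the multiplicative chaos of random polynomials on the unit circle.
-/

open MeasureTheory ProbabilityTheory Filter Topology Set
open scoped ENNReal NNReal

namespace Pool.Agent.Helper711.ChaosDefs

/-- The unit circle `S¹ = {z ∈ ℂ : |z| = 1}` with its subspace topology and Borel sigma-algebra. -/
abbrev S1 : Type := Metric.sphere (0 : ℂ) 1

/-- The point `e^{iθ}` of the unit circle. -/
noncomputable def expPoint (θ : ℝ) : S1 :=
  ⟨Complex.exp (θ * Complex.I), by simp [Complex.norm_exp_ofReal_mul_I]⟩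

/-- Lebesgue (arc length) measure on the unit circle: image of Lebesgue measure on `(-π, π]`
under `θ ↦ e^{iθ}`. -/
noncomputable def arcLength : Measure S1 :=
  Measure.map expPoint (volume.restrict (Set.Ioc (-Real.pi) Real.pi))

/-- The random polynomial `P_n(z) = ∑_{1 ≤ k ≤ n} k^{-1/2} ξ_k z^k`; the coefficient called `ξ_k`
in the problem is `ξ (k - 1)` here. -/
noncomputable def randomPoly {Ω : Type*} (ξ : ℕ → Ω → ℂ) (n : ℕ) (ω : Ω) (z : S1) : ℂ :=
  ∑ k ∈ Finset.range n, ((1 / √((k : ℝ) + 1) : ℝ) : ℂ) * ξ k ω * (z : ℂ) ^ (k + 1)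

/-- The density `exp (γ Re P_n(z) - (γ²/2) Var (Re P_n(z)))`. -/
noncomputable def chaosDensity {Ω : Type*} {mΩ : MeasurableSpace Ω} (P : Measure Ω)
    (ξ : ℕ → Ω → ℂ) (γ : ℝ) (n : ℕ) (ω : Ω) (z : S1) : ℝ :=
  Real.exp (γ * (randomPoly ξ n ω z).re
    - γ ^ 2 / 2 * Var[fun ω' => (randomPoly ξ n ω' z).re; P])

/-- `μlim` is the almost sure vague limit of the measures `μ_n` with density `chaosDensity`, for
the real coefficients `X`: almost surely `∫ f dμ_n → ∫ f dμlim` for every continuous `f`. -/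
def IsChaosLimit {Ω : Type*} {mΩ : MeasurableSpace Ω} (P : Measure Ω) (X : ℕ → Ω → ℝ) (γ : ℝ)
    (μlim : Ω → FiniteMeasure S1) : Prop :=
  ∀ᵐ ω ∂P, ∀ f : C(S1, ℝ),
    Tendsto (fun n => ∫ z, f z * chaosDensity P (fun k ω => (X k ω : ℂ)) γ n ω z ∂arcLength) atTop
      (𝓝 (∫ z, f z ∂(μlim ω : Measure S1)))

/-- The Hausdorff dimension of a measure on the circle: infimum of the Hausdorff dimensions of the
Borel sets of full measure. -/
noncomputable def dimMeasure (μ : Measure S1) : ℝ≥0∞ :=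
  ⨅ (A : Set S1) (_ : MeasurableSet A) (_ : μ Aᶜ = 0), dimH A

end Pool.Agent.Helper711.ChaosDefs
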