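import Mathlib

/-!
The trigonometric kernel `∑ cos(kα)/k`: logarithmic upper bound and uniform exponential
integrability.
-/

open MeasureTheory Filter Topology Set
open scoped ENNReal NNReal

namespace Pool.Agent.Helper711.ChaosKernel

/-- partial sums of `∑ cos (k α) / k` -/
noncomputable def Sn (n : ℕ) (α : ℝ) : ℝ :=
  ∑ k ∈ Finset.range n, Real.cos (((k : ℝ) + 1) * α) / ((k : ℝ) + 1)

/-- sums of cosines from `N` on -/
noncomputable def Tn (N n : ℕ) (α : ℝ) : ℝ :=
  ∑ k ∈ Finset.Ico N n, Real.cos (((k : ℝ) + 1) * α)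

lemma Tn_formula (N n : ℕ) (h : N ≤ n) (α : ℝ) :
    2 * Real.sin (α / 2) * Tn N n α =
      Real.sin (((n : ℝ) + 1 / 2) * α) - Real.sin (((N : ℝ) + 1 / 2) * α) := by
  induction n, h using Nat.le_induction with
  | base => simp [Tn]
  | succ n hn ih =>
    unfold Tn at ih ⊢
    rw [Finset.sum_Ico_succ_top hn, mul_add, ih]
    have h1 : Real.sin (((n + 1 : ℕ) + 1 / 2 : ℝ) * α) =
        Real.sin (((n : ℝ) + 1) * α + α / 2) := by congr 1; push_cast; ring
    have h2 : Real.sin (((n : ℝ) + 1 / 2) * α) =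
        Real.sin (((n : ℝ) + 1) * α - α / 2) := by congr 1; ring
    rw [h1, h2, Real.sin_add, Real.sin_sub]
    ring

lemma Tn_le (N n : ℕ) (h : N ≤ n) (α : ℝ) (hs : 0 < |Real.sin (α / 2)|) :
    |Tn N n α| ≤ 1 / |Real.sin (α / 2)| := by
  rw [le_div_iff₀ hs]
  have h1 := Tn_formula N n h α
  have h2 : 2 * (|Tn N n α| * |Real.sin (α / 2)|) =
      |Real.sin (((n : ℝ) + 1 / 2) * α) - Real.sin (((N : ℝ) + 1 / 2) * α)| := by
    rw [← h1, abs_mul, abs_mul]
    simp; ring
  have h3 : |Real.sin (((n : ℝ) + 1 / 2) * α) - Real.sin (((N : ℝ) + 1 / 2) * α)| ≤ 2 := by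
    refine (abs_sub _ _).trans ?_
    have := Real.abs_sin_le_one (((n : ℝ) + 1 / 2) * α)
    have := Real.abs_sin_le_one (((N : ℝ) + 1 / 2) * α)
    linarith
  linarith

lemma tail_le (N n : ℕ) (h : N ≤ n) (α : ℝ) (hs : 0 < |Real.sin (α / 2)|) :
    ∑ k ∈ Finset.Ico N n, Real.cos (((k : ℝ) + 1) * α) / ((k : ℝ) + 1) ≤
      (1 / |Real.sin (α / 2)|) * (1 / ((N : ℝ) + 1)) := by
  have key : ∑ k ∈ Finset.Ico N n, Real.cos (((k : ℝ) + 1) * α) / ((k : ℝ) + 1)
      - Tn N n α / ((n : ℝ) + 1) ≤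
      (1 / |Real.sin (α / 2)|) * (1 / ((N : ℝ) + 1) - 1 / ((n : ℝ) + 1)) := by
    induction n, h using Nat.le_induction with
    | base => simp [Tn]
    | succ n hn ih =>
      rw [Finset.sum_Ico_succ_top hn]
      have h1 : Tn N (n + 1) α = Tn N n α + Real.cos (((n : ℝ) + 1) * α) := by
        unfold Tn; rw [Finset.sum_Ico_succ_top hn]
      have h2 : ∑ k ∈ Finset.Ico N n, Real.cos (((k : ℝ) + 1) * α) / ((k : ℝ) + 1)
          + Real.cos (((n : ℝ) + 1) * α) / ((n : ℝ) + 1) - Tn N (n + 1) α / (((n + 1 : ℕ) : ℝ) + 1)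
          = (∑ k ∈ Finset.Ico N n, Real.cos (((k : ℝ) + 1) * α) / ((k : ℝ) + 1)
            - Tn N n α / ((n : ℝ) + 1)) +
            Tn N (n + 1) α * (1 / ((n : ℝ) + 1) - 1 / (((n + 1 : ℕ) : ℝ) + 1)) := by
        rw [h1]; ring
      rw [h2]
      have h3 := Tn_le N (n + 1) (by omega) α hs
      have h4 : 0 ≤ 1 / ((n : ℝ) + 1) - 1 / (((n + 1 : ℕ) : ℝ) + 1) := by
        rw [sub_nonneg]
        apply one_div_le_one_div_of_le (by positivity)
        push_cast; linarith
      have h5 : Tn N (n + 1) α * (1 / ((n : ℝ) + 1) - 1 / (((n + 1 : ℕ) : ℝ) + 1)) ≤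
          (1 / |Real.sin (α / 2)|) * (1 / ((n : ℝ) + 1) - 1 / (((n + 1 : ℕ) : ℝ) + 1)) := by
        apply mul_le_mul_of_nonneg_right _ h4
        exact (le_abs_self _).trans h3
      calc _ ≤ (1 / |Real.sin (α / 2)|) * (1 / ((N : ℝ) + 1) - 1 / ((n : ℝ) + 1)) +
            (1 / |Real.sin (α / 2)|) * (1 / ((n : ℝ) + 1) - 1 / (((n + 1 : ℕ) : ℝ) + 1)) :=
            add_le_add ih h5
        _ = _ := by ring
  have h6 := Tn_le N n h α hs
  have h7 : Tn N n α / ((n : ℝ) + 1) ≤ (1 / |Real.sin (α / 2)|) * (1 / ((n : ℝ) + 1)) := by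
    rw [div_eq_mul_one_div]
    apply mul_le_mul_of_nonneg_right _ (by positivity)
    exact (le_abs_self _).trans h6
  calc _ = (∑ k ∈ Finset.Ico N n, Real.cos (((k : ℝ) + 1) * α) / ((k : ℝ) + 1)
      - Tn N n α / ((n : ℝ) + 1)) + Tn N n α / ((n : ℝ) + 1) := by ring
    _ ≤ (1 / |Real.sin (α / 2)|) * (1 / ((N : ℝ) + 1) - 1 / ((n : ℝ) + 1)) +
        (1 / |Real.sin (α / 2)|) * (1 / ((n : ℝ) + 1)) := add_le_add key h7
    _ = _ := by ring

lemma head_le (n : ℕ) (α : ℝ) : Sn n α ≤ 1 + Real.log n := by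
  refine le_trans ?_ (harmonic_le_one_add_log n)
  rw [harmonic]
  push_cast
  unfold Sn
  apply Finset.sum_le_sum
  intro k _
  rw [div_eq_mul_inv]
  have := Real.cos_le_one (((k : ℝ) + 1) * α)
  have h2 : (0 : ℝ) ≤ ((k : ℝ) + 1)⁻¹ := by positivity
  nlinarith

/-- `∑_{k ≤ n} cos(kα)/k ≤ 2 + log (1/|sin (α/2)|)`. -/
lemma Sn_le (n : ℕ) (α : ℝ) (hs : 0 < |Real.sin (α / 2)|) :
    Sn n α ≤ 2 - Real.log |Real.sin (α / 2)| := by
  set s := |Real.sin (α / 2)| with hsdef
  have hs1 : s ≤ 1 := Real.abs_sin_le_one _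
  have hinv : 1 ≤ 1 / s := by rw [le_div_iff₀ hs]; linarith
  set N := ⌊1 / s⌋₊ with hN
  have hN1 : 1 ≤ N := (Nat.one_le_floor_iff _).mpr hinv
  have hNle : (N : ℝ) ≤ 1 / s := Nat.floor_le (by positivity)
  have hNlt : 1 / s < (N : ℝ) + 1 := Nat.lt_floor_add_one _
  have hlog : Real.log (1 / s) = - Real.log s := by rw [one_div, Real.log_inv]
  have hhead : ∀ m : ℕ, m ≤ N → Sn m α ≤ 1 - Real.log s := by
    intro m hm
    rcases Nat.eq_zero_or_pos m with h0 | h0
    · subst h0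
      simp only [Sn, Finset.range_zero, Finset.sum_empty]
      have : 0 ≤ Real.log (1 / s) := Real.log_nonneg hinv
      linarith
    · have h1 := head_le m α
      have h2 : Real.log m ≤ Real.log (1 / s) := by
        apply Real.log_le_log (by exact_mod_cast h0)
        exact le_trans (by exact_mod_cast hm) hNle
      linarith
  rcases le_total n N with hn | hn
  · have := hhead n hn
    linarith
  · have h1 : Sn n α = Sn N α +
        ∑ k ∈ Finset.Ico N n, Real.cos (((k : ℝ) + 1) * α) / ((k : ℝ) + 1) := by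
      unfold Sn
      rw [Finset.sum_range_add_sum_Ico _ hn]
    have h2 := tail_le N n hn α hs
    have h3 : (1 / s) * (1 / ((N : ℝ) + 1)) ≤ 1 := by
      rw [mul_one_div, div_le_one (by positivity)]
      exact hNlt.le
    have h4 := hhead N le_rfl
    linarith

lemma sin_lower (α : ℝ) (h : |α| ≤ Real.pi) : |α| / Real.pi ≤ |Real.sin (α / 2)| := by
  have h1 : |Real.sin (α / 2)| = Real.sin (|α| / 2) := by
    rcases le_total 0 α with h0 | h0
    · rw [abs_of_nonneg h0] at h ⊢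
      rw [abs_of_nonneg]
      apply Real.sin_nonneg_of_nonneg_of_le_pi (by linarith) (by linarith [Real.pi_pos])
    · rw [abs_of_nonpos h0] at h ⊢
      rw [neg_div, Real.sin_neg, abs_of_nonpos]
      apply Real.sin_nonpos_of_nonpos_of_neg_pi_le (by linarith) (by linarith [Real.pi_pos])
  rw [h1]
  have h2 := Real.mul_le_sin (x := |α| / 2) (by positivity) (by linarith)
  calc |α| / Real.pi = 2 / Real.pi * (|α| / 2) := by ring
    _ ≤ _ := h2

/-- pointwise bound for the exponential of the kernel -/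
lemma exp_Sn_le (n : ℕ) (t : ℝ) (ht0 : 0 ≤ t) (ht : t ≤ 1 / 2) (α : ℝ) (hα : α ≠ 0)
    (h : |α| ≤ Real.pi) :
    Real.exp (t * Sn n α) ≤ Real.exp 1 * Real.pi ^ (1 / 2 : ℝ) * |α| ^ (-(1 / 2) : ℝ) := by
  have hpos : 0 < |α| := abs_pos.mpr hα
  have hlow := sin_lower α h
  have hq : 0 < |α| / Real.pi := by positivity
  have hs : 0 < |Real.sin (α / 2)| := lt_of_lt_of_le hq hlow
  have h1 := Sn_le n α hs
  have hlog : Real.log (|α| / Real.pi) ≤ Real.log |Real.sin (α / 2)| := Real.log_le_log hq hlow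
  have hq1 : |α| / Real.pi ≤ 1 := by rw [div_le_one Real.pi_pos]; exact h
  have hlog0 : Real.log (|α| / Real.pi) ≤ 0 := Real.log_nonpos hq.le hq1
  have h2 : t * Sn n α ≤ 1 - 1 / 2 * Real.log (|α| / Real.pi) := by
    calc t * Sn n α ≤ t * (2 - Real.log (|α| / Real.pi)) := by
          apply mul_le_mul_of_nonneg_left _ ht0
          linarith
      _ ≤ 1 / 2 * (2 - Real.log (|α| / Real.pi)) := by
          apply mul_le_mul_of_nonneg_right ht
          linarith
      _ = _ := by ring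
  calc Real.exp (t * Sn n α) ≤ Real.exp (1 - 1 / 2 * Real.log (|α| / Real.pi)) :=
        Real.exp_le_exp.mpr h2
    _ = Real.exp 1 * Real.exp (Real.log (|α| / Real.pi) * (-(1 / 2))) := by
        rw [← Real.exp_add]; congr 1; ring
    _ = Real.exp 1 * (|α| / Real.pi) ^ (-(1 / 2) : ℝ) := by rw [Real.rpow_def_of_pos hq]
    _ = Real.exp 1 * Real.pi ^ (1 / 2 : ℝ) * |α| ^ (-(1 / 2) : ℝ) := by
        rw [Real.div_rpow hpos.le Real.pi_pos.le, Real.rpow_neg Real.pi_pos.le]
        field_simp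

/-- the uniform constant -/
noncomputable def CB : ℝ :=
  ∫ α in (-Real.pi)..Real.pi, Real.exp 1 * Real.pi ^ (1 / 2 : ℝ) * |α| ^ (-(1 / 2) : ℝ)

lemma intervalIntegrable_abs_rpow :
    IntervalIntegrable (fun α : ℝ => Real.exp 1 * Real.pi ^ (1 / 2 : ℝ) * |α| ^ (-(1 / 2) : ℝ))
      volume (-Real.pi) Real.pi := by
  apply IntervalIntegrable.const_mul
  have h1 : IntervalIntegrable (fun α : ℝ => |α| ^ (-(1 / 2) : ℝ)) volume 0 Real.pi := by
    have h2 : IntervalIntegrable (fun α : ℝ => α ^ (-(1 / 2) : ℝ)) volume 0 Real.pi :=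
      intervalIntegral.intervalIntegrable_rpow' (by norm_num)
    refine h2.congr ?_
    intro x hx
    rw [Set.uIoc_of_le Real.pi_pos.le] at hx
    simp only
    rw [abs_of_pos hx.1]
  have h3 : IntervalIntegrable (fun α : ℝ => |α| ^ (-(1 / 2) : ℝ)) volume (-Real.pi) 0 := by
    have h4 := (IntervalIntegrable.iff_comp_neg).mp h1
    simp only [abs_neg, neg_zero] at h4
    exact h4.symm
  exact h3.trans h1

lemma continuous_Sn (n : ℕ) : Continuous (Sn n) := by
  unfold Sn; fun_prop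

lemma periodic_Sn (n : ℕ) : Function.Periodic (Sn n) (2 * Real.pi) := by
  intro α
  unfold Sn
  apply Finset.sum_congr rfl
  intro k _
  congr 1
  have : ((k : ℝ) + 1) * (α + 2 * Real.pi) = ((k : ℝ) + 1) * α + ((k + 1 : ℕ) : ℝ) * (2 * Real.pi) := by
    push_cast; ring
  rw [this, Real.cos_add_nat_mul_two_pi]

/-- uniform exponential integrability of the kernel, with an arbitrary shift -/
lemma integral_exp_Sn_le (n : ℕ) (t : ℝ) (ht0 : 0 ≤ t) (ht : t ≤ 1 / 2) (φ : ℝ) :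
    ∫ α in (-Real.pi)..Real.pi, Real.exp (t * Sn n (α + φ)) ≤ CB := by
  have hper : Function.Periodic (fun α => Real.exp (t * Sn n α)) (2 * Real.pi) := by
    intro α
    simp only
    rw [periodic_Sn n α]
  have h1 : ∫ α in (-Real.pi)..Real.pi, Real.exp (t * Sn n (α + φ)) =
      ∫ α in (-Real.pi)..Real.pi, Real.exp (t * Sn n α) := by
    rw [intervalIntegral.integral_comp_add_right (fun α => Real.exp (t * Sn n α))]
    have h2 := hper.intervalIntegral_add_eq (-Real.pi + φ) (-Real.pi)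
    rw [show Real.pi + φ = -Real.pi + φ + 2 * Real.pi by ring, h2]
    congr 1; ring
  rw [h1]
  unfold CB
  apply intervalIntegral.integral_mono_ae_restrict (by linarith [Real.pi_pos])
  · apply Continuous.intervalIntegrable
    have := continuous_Sn n
    fun_prop
  · exact intervalIntegrable_abs_rpow
  · rw [EventuallyLE, ae_restrict_iff' measurableSet_Icc]
    have h0 : (volume : Measure ℝ) {(0 : ℝ)} = 0 := by simp
    filter_upwards [compl_mem_ae_iff.mpr h0] with α hα0 hα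
    exact exp_Sn_le n t ht0 ht α hα0 (abs_le.mpr ⟨hα.1, hα.2⟩)

end Pool.Agent.Helper711.ChaosKernel
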