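import Mathlib
import Pool.Agent.Helper711.ChaosBase
import Pool.Agent.Helper711.ChaosKernel

/-!
Geometry of the circle: grid balls, their length, and the mass distribution principle.
-/

open MeasureTheory ProbabilityTheory Filter Topology Set
open scoped ENNReal NNReal BoundedContinuousFunction

set_option linter.unusedSectionVars false

namespace Pool.Agent.Helper711.ChaosDim
open Pool.Agent.Helper711.ChaosDefs Pool.Agent.Helper711.ChaosBase Pool.Agent.Helper711.ChaosKernel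

lemma dist_expPoint (θ φ : ℝ) :
    dist (expPoint θ) (expPoint φ) = 2 * |Real.sin ((θ - φ) / 2)| := by
  rw [Subtype.dist_eq, Complex.dist_eq]
  simp only [expPoint]
  have h1 : Complex.exp ((θ : ℂ) * Complex.I) - Complex.exp ((φ : ℂ) * Complex.I) =
      Complex.exp ((φ : ℂ) * Complex.I) * (Complex.exp (Complex.I * ((θ - φ : ℝ) : ℂ)) - 1) := by
    rw [mul_sub, ← Complex.exp_add, mul_one]
    congr 2
    push_cast; ring
  rw [h1, norm_mul, Complex.norm_exp_ofReal_mul_I, one_mul,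
    Complex.norm_exp_I_mul_ofReal_sub_one, Real.norm_eq_abs, abs_mul]
  norm_num

lemma dist_expPoint_le (θ φ : ℝ) : dist (expPoint θ) (expPoint φ) ≤ |θ - φ| := by
  rw [dist_expPoint]
  have h1 : |Real.sin ((θ - φ) / 2)| ≤ |(θ - φ) / 2| := Real.abs_sin_le_abs
  rw [abs_div] at h1
  norm_num at h1
  linarith

lemma exists_angle (w : S1) : ∃ θ ∈ Set.Ioc (-Real.pi) Real.pi, w = expPoint θ := by
  refine ⟨Complex.arg w, Complex.arg_mem_Ioc _, ?_⟩
  apply Subtype.ext
  have hw : ‖(w : ℂ)‖ = 1 := by simp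
  have := Complex.norm_mul_exp_arg_mul_I (w : ℂ)
  rw [hw, Complex.ofReal_one, one_mul] at this
  exact this.symm

/-- grid points -/
noncomputable def xg (m j : ℕ) : S1 :=
  expPoint (2 * Real.pi * (j : ℝ) / 16 ^ m - Real.pi)

lemma exists_grid (m : ℕ) (a : S1) : ∃ j < 16 ^ m, dist a (xg m j) ≤ 7 * (1 / 16) ^ m := by
  obtain ⟨θ, hθ, rfl⟩ := exists_angle a
  have hpi := Real.pi_pos
  have h16 : (0 : ℝ) < 16 ^ m := by positivity
  set t : ℝ := (θ + Real.pi) / (2 * Real.pi) * 16 ^ m with ht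
  have ht0 : 0 < t := by
    have : 0 < θ + Real.pi := by linarith [hθ.1]
    positivity
  have ht1 : t ≤ 16 ^ m := by
    have : (θ + Real.pi) / (2 * Real.pi) ≤ 1 := by
      rw [div_le_one (by positivity)]; linarith [hθ.2]
    calc t ≤ 1 * 16 ^ m := by rw [ht]; gcongr
      _ = _ := one_mul _
  have hc : 1 ≤ ⌈t⌉₊ := Nat.one_le_ceil_iff.mpr ht0
  have hc2 : ⌈t⌉₊ ≤ 16 ^ m := by
    rw [Nat.ceil_le]; push_cast; exact ht1
  refine ⟨⌈t⌉₊ - 1, by omega, ?_⟩
  unfold xg
  refine (dist_expPoint_le _ _).trans ?_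
  have h1 : (((⌈t⌉₊ - 1 : ℕ) : ℝ)) = (⌈t⌉₊ : ℝ) - 1 := by
    rw [Nat.cast_sub hc]; simp
  have h2 : t ≤ (⌈t⌉₊ : ℝ) := Nat.le_ceil t
  have h3 : (⌈t⌉₊ : ℝ) < t + 1 := Nat.ceil_lt_add_one ht0.le
  have h4 : θ - (2 * Real.pi * ((⌈t⌉₊ - 1 : ℕ) : ℝ) / 16 ^ m - Real.pi) =
      (2 * Real.pi / 16 ^ m) * (t - (((⌈t⌉₊ - 1 : ℕ) : ℝ))) := by
    rw [ht]; field_simp; ring
  rw [h4, h1, abs_mul, abs_of_pos (by positivity : 0 < 2 * Real.pi / 16 ^ m)]
  have h5 : |t - ((⌈t⌉₊ : ℝ) - 1)| ≤ 1 := by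
    rw [abs_le]; constructor <;> linarith
  have h6 : 2 * Real.pi ≤ 7 := by linarith [Real.pi_lt_d2]
  calc 2 * Real.pi / 16 ^ m * |t - ((⌈t⌉₊ : ℝ) - 1)| ≤ 2 * Real.pi / 16 ^ m * 1 := by gcongr
    _ ≤ 7 / 16 ^ m * 1 := by gcongr
    _ = 7 * (1 / 16) ^ m := by rw [one_div, inv_pow]; ring

/-- length of a ball of the circle -/
lemma arcLength_closedBall (x : S1) (r : ℝ) (hr : 0 ≤ r) :
    arcLength (Metric.closedBall x r) ≤ ENNReal.ofReal (10 * r) := by
  obtain ⟨φ, hφ, rfl⟩ := exists_angle x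
  have hpi := Real.pi_pos
  unfold arcLength
  rw [Measure.map_apply continuous_expPoint.measurable Metric.isClosed_closedBall.measurableSet,
    Measure.restrict_apply' measurableSet_Ioc]
  have hsub : expPoint ⁻¹' Metric.closedBall (expPoint φ) r ∩ Set.Ioc (-Real.pi) Real.pi ⊆
      (Set.Icc (φ - Real.pi * r / 2) (φ + Real.pi * r / 2) ∪
        Set.Icc (φ + 2 * Real.pi - Real.pi * r / 2) (φ + 2 * Real.pi + Real.pi * r / 2)) ∪
        Set.Icc (φ - 2 * Real.pi - Real.pi * r / 2) (φ - 2 * Real.pi + Real.pi * r / 2) := by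
    intro θ hθ
    have hd : 2 * |Real.sin ((θ - φ) / 2)| ≤ r := by
      have := hθ.1
      rw [Set.mem_preimage, Metric.mem_closedBall, dist_expPoint] at this
      exact this
    have h1 := hθ.2.1
    have h2 := hθ.2.2
    have h3 := hφ.1
    have h4 := hφ.2
    have key : ∀ u : ℝ, |u| ≤ Real.pi → 2 * |Real.sin (u / 2)| ≤ r → |u| ≤ Real.pi * r / 2 := by
      intro u hu hs
      have h5 := sin_lower u hu
      rw [div_le_iff₀ hpi] at h5
      nlinarith
    rcases le_or_gt |θ - φ| Real.pi with hc | hc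
    · left; left
      have := key (θ - φ) hc hd
      rw [abs_le] at this
      constructor <;> linarith [this.1, this.2]
    · rcases lt_abs.mp hc with hc' | hc'
      · left; right
        have hs : |Real.sin ((θ - φ - 2 * Real.pi) / 2)| = |Real.sin ((θ - φ) / 2)| := by
          rw [show (θ - φ - 2 * Real.pi) / 2 = (θ - φ) / 2 - Real.pi by ring, Real.sin_sub_pi,
            abs_neg]
        have := key (θ - φ - 2 * Real.pi) (by rw [abs_le]; constructor <;> linarith)
          (by rw [hs]; exact hd)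
        rw [abs_le] at this
        constructor <;> linarith [this.1, this.2]
      · right
        have hs : |Real.sin ((θ - φ + 2 * Real.pi) / 2)| = |Real.sin ((θ - φ) / 2)| := by
          rw [show (θ - φ + 2 * Real.pi) / 2 = (θ - φ) / 2 + Real.pi by ring, Real.sin_add_pi,
            abs_neg]
        have := key (θ - φ + 2 * Real.pi) (by rw [abs_le]; constructor <;> linarith)
          (by rw [hs]; exact hd)
        rw [abs_le] at this
        constructor <;> linarith [this.1, this.2]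
  refine (measure_mono hsub).trans ?_
  refine (measure_union_le _ _).trans ?_
  refine (add_le_add_left (measure_union_le _ _) _).trans ?_
  rw [Real.volume_Icc, Real.volume_Icc, Real.volume_Icc]
  have e1 : φ + Real.pi * r / 2 - (φ - Real.pi * r / 2) = Real.pi * r := by ring
  have e2 : φ + 2 * Real.pi + Real.pi * r / 2 - (φ + 2 * Real.pi - Real.pi * r / 2) =
    Real.pi * r := by ring
  have e3 : φ - 2 * Real.pi + Real.pi * r / 2 - (φ - 2 * Real.pi - Real.pi * r / 2) =
    Real.pi * r := by ring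
  rw [e1, e2, e3, ← ENNReal.ofReal_add (by positivity) (by positivity),
    ← ENNReal.ofReal_add (by positivity) (by positivity)]
  apply ENNReal.ofReal_le_ofReal
  have := Real.pi_lt_d2
  nlinarith

/-- Mass distribution principle, in the form needed here. -/
theorem le_hausdorff_of_grid (μ : Measure S1) (m0 : ℕ)
    (h : ∀ m ≥ m0, ∀ j < 16 ^ m, μ (Metric.closedBall (xg m j) (8 * (1 / 16) ^ m)) ^ 2 ≤
      ENNReal.ofReal ((1 / 2) ^ m)) :
    μ ≤ Measure.hausdorffMeasure (1 / 16 : ℝ) := by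
  have hcover : ∀ m ≥ m0, ∀ A : Set S1, Metric.ediam A ≤ ENNReal.ofReal ((1 / 16) ^ m) →
      μ A ^ 2 ≤ ENNReal.ofReal ((1 / 2) ^ m) := by
    intro m hm A hA
    rcases A.eq_empty_or_nonempty with rfl | ⟨a, ha⟩
    · simp
    obtain ⟨j, hj, hd⟩ := exists_grid m a
    refine le_trans ?_ (h m hm j hj)
    gcongr
    intro b hb
    rw [Metric.mem_closedBall]
    have h1 : edist b a ≤ ENNReal.ofReal ((1 / 16) ^ m) := (Metric.edist_le_ediam_of_mem hb ha).trans hA
    rw [edist_dist, ENNReal.ofReal_le_ofReal_iff (by positivity)] at h1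
    calc dist b (xg m j) ≤ dist b a + dist a (xg m j) := dist_triangle _ _ _
      _ ≤ (1 / 16) ^ m + 7 * (1 / 16) ^ m := add_le_add h1 hd
      _ = 8 * (1 / 16) ^ m := by ring
  set m1 := max m0 1 with hm1
  have hm1' : m0 ≤ m1 := le_max_left _ _
  have hm1'' : 1 ≤ m1 := le_max_right _ _
  apply Measure.le_hausdorffMeasure _ _ (ENNReal.ofReal ((1 / 16) ^ m1)) (by positivity)
  intro A hA
  rcases eq_or_ne (Metric.ediam A) 0 with h0 | h0
  · -- zero diameter
    have h1 : ∀ m ≥ m0, μ A ^ 2 ≤ ENNReal.ofReal ((1 / 2) ^ m) := fun m hm =>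
      hcover m hm A (by rw [h0]; exact bot_le)
    have h2 : μ A ^ 2 ≤ 0 := by
      have h3 : Tendsto (fun m : ℕ => ENNReal.ofReal ((1 / 2) ^ m)) atTop (𝓝 0) := by
        have := (ENNReal.continuous_ofReal.tendsto 0).comp
          (tendsto_pow_atTop_nhds_zero_of_lt_one (r := (1 / 2 : ℝ)) (by norm_num) (by norm_num))
        rw [ENNReal.ofReal_zero] at this
        exact this
      exact ge_of_tendsto h3 (eventually_atTop.mpr ⟨m0, h1⟩)
    have h4 : μ A = 0 := by
      have := le_antisymm h2 bot_le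
      exact pow_eq_zero_iff (two_ne_zero) |>.mp this
    rw [h4]
    exact bot_le
  · have htop : Metric.ediam A ≠ ∞ := (hA.trans_lt ENNReal.ofReal_lt_top).ne
    set d := (Metric.ediam A).toReal with hd
    have hdA : Metric.ediam A = ENNReal.ofReal d := (ENNReal.ofReal_toReal htop).symm
    have hd0 : 0 < d := ENNReal.toReal_pos h0 htop
    have hd1 : d ≤ (1 / 16) ^ m1 := by
      rw [hdA, ENNReal.ofReal_le_ofReal_iff (by positivity)] at hA
      exact hA
    have hd2 : d ≤ 1 := hd1.trans (pow_le_one₀ (by norm_num) (by norm_num))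
    obtain ⟨m, hm2, hm3⟩ := exists_nat_pow_near_of_lt_one hd0 hd2
      (show (0 : ℝ) < 1 / 16 by norm_num) (by norm_num)
    have hmm : m1 < m + 1 := by
      by_contra hcon
      push Not at hcon
      have : ((1 : ℝ) / 16) ^ m1 ≤ (1 / 16) ^ (m + 1) :=
        pow_le_pow_of_le_one (by norm_num) (by norm_num) hcon
      linarith
    have hm4 : m1 ≤ m := by omega
    have h5 := hcover m (hm1'.trans hm4) A (by rw [hdA]; exact ENNReal.ofReal_le_ofReal hm3)
    have h6 : μ A ≤ ENNReal.ofReal (((1 / 2) ^ m : ℝ) ^ (1 / 2 : ℝ)) := by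
      have h7 := ENNReal.rpow_le_rpow h5 (show (0 : ℝ) ≤ 1 / 2 by norm_num)
      rw [ENNReal.ofReal_rpow_of_nonneg (by positivity) (by norm_num)] at h7
      refine le_trans (le_of_eq ?_) h7
      rw [← ENNReal.rpow_natCast, ← ENNReal.rpow_mul]
      norm_num
    refine h6.trans ?_
    rw [hdA, ENNReal.ofReal_rpow_of_nonneg hd0.le (by norm_num)]
    apply ENNReal.ofReal_le_ofReal
    have h8 : (((1 / 16) ^ (m + 1) : ℝ)) ^ (1 / 16 : ℝ) ≤ d ^ (1 / 16 : ℝ) :=
      Real.rpow_le_rpow (by positivity) hm2.le (by norm_num)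
    refine le_trans ?_ h8
    have h9 : (((1 / 16) ^ (m + 1) : ℝ)) ^ (1 / 16 : ℝ) = (1 / 2 : ℝ) ^ (((m : ℝ) + 1) / 4) := by
      rw [show (1 / 16 : ℝ) ^ (m + 1) = (1 / 2 : ℝ) ^ (4 * ((m : ℝ) + 1)) by
        rw [Real.rpow_mul (by norm_num)]
        norm_num
        rw [← Real.rpow_natCast]
        push_cast
        rfl]
      rw [← Real.rpow_mul (by norm_num)]
      congr 1; ring
    have h10 : (((1 / 2) ^ m : ℝ)) ^ (1 / 2 : ℝ) = (1 / 2 : ℝ) ^ ((m : ℝ) / 2) := by
      rw [← Real.rpow_natCast, ← Real.rpow_mul (by norm_num)]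
      congr 1; ring
    rw [h9, h10]
    apply Real.rpow_le_rpow_of_exponent_ge (by norm_num) (by norm_num)
    have : (1 : ℝ) ≤ m := by exact_mod_cast hm1''.trans hm4
    linarith

lemma dimMeasure_zero : dimMeasure 0 = 0 := by
  apply le_antisymm _ bot_le
  unfold dimMeasure
  refine (iInf_le _ (∅ : Set S1)).trans ?_
  refine (iInf_le _ MeasurableSet.empty).trans ?_
  refine (iInf_le _ (by simp)).trans ?_
  simp

lemma le_dimMeasure (μ : Measure S1) (hμ : μ ≠ 0)
    (h : μ ≤ Measure.hausdorffMeasure (1 / 16 : ℝ)) : 1 / 16 ≤ dimMeasure μ := by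
  unfold dimMeasure
  refine le_iInf fun A => le_iInf fun hA => le_iInf fun hA0 => ?_
  have h1 : μ A ≠ 0 := by
    intro h2
    apply hμ
    rw [← Measure.measure_univ_eq_zero, ← Set.union_compl_self A]
    exact le_antisymm ((measure_union_le _ _).trans (by rw [h2, hA0]; simp)) bot_le
  have h3 : (Measure.hausdorffMeasure (1 / 16 : ℝ)) A ≠ 0 := by
    intro h4
    exact h1 (le_antisymm ((h A).trans h4.le) bot_le)
  have h5 : (Measure.hausdorffMeasure (((1 / 16 : ℝ≥0) : ℝ≥0) : ℝ)) A ≠ 0 := by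
    have e : (((1 / 16 : ℝ≥0) : ℝ≥0) : ℝ) = 1 / 16 := by norm_num
    rw [e]; exact h3
  have h6 := le_dimH_of_hausdorffMeasure_ne_zero h5
  refine le_trans (le_of_eq ?_) h6
  rw [ENNReal.coe_div (by norm_num)]
  norm_num

end Pool.Agent.Helper711.ChaosDim
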