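import Mathlib
import Pool.Agent.Helper711.ChaosBase
import Pool.Agent.Helper711.ChaosKernel

/-!
Second moments of the Gaussian chaos on the circle.
-/

open MeasureTheory ProbabilityTheory Filter Topology Set
open scoped ENNReal NNReal BoundedContinuousFunction

set_option linter.unusedSectionVars false

namespace Pool.Agent.Helper711.ChaosGauss
open Pool.Agent.Helper711.ChaosDefs Pool.Agent.Helper711.ChaosBase Pool.Agent.Helper711.ChaosKernel

/-- the coefficient functions `Re (z^k) / √k` -/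
noncomputable def cc (k : ℕ) (z : S1) : ℝ := ((z : ℂ) ^ (k + 1)).re / √((k : ℝ) + 1)

lemma continuous_cc (k : ℕ) : Continuous (cc k) := by
  unfold cc; fun_prop

lemma abs_cc_le (k : ℕ) (z : S1) : |cc k z| ≤ 1 := by
  unfold cc
  have hz : ‖(z : ℂ)‖ = 1 := by simp
  rw [abs_div, abs_of_nonneg (Real.sqrt_nonneg _), div_le_one (by positivity)]
  refine (Complex.abs_re_le_norm _).trans ?_
  rw [norm_pow, hz, one_pow, Real.one_le_sqrt]
  linarith [(Nat.cast_nonneg k : (0 : ℝ) ≤ k)]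

variable {Ω : Type*} {mΩ : MeasurableSpace Ω} (P : Measure Ω) [IsProbabilityMeasure P]
  (X : ℕ → Ω → ℝ) (hX : ∀ k, Measurable (X k)) (hind : iIndepFun X P)

/-- the explicit density -/
noncomputable def DD (γ : ℝ) (n : ℕ) (ω : Ω) (z : S1) : ℝ :=
  Real.exp (γ * ∑ k ∈ Finset.range n, X k ω * cc k z -
    γ ^ 2 / 2 * ∑ k ∈ Finset.range n, cc k z ^ 2)

lemma DD_pos (γ : ℝ) (n : ℕ) (ω : Ω) (z : S1) : 0 < DD X γ n ω z := Real.exp_pos _

include hX hind in
/-- For independent centered variables of variance one the density is explicit. -/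
lemma chaosDensity_eq (h0 : ∀ k, ∫ ω, X k ω ∂P = 0) (h1 : ∀ k, ∫ ω, X k ω ^ 2 ∂P = 1)
    (γ : ℝ) (n : ℕ) (ω : Ω) (z : S1) :
    chaosDensity P (fun k ω => (X k ω : ℂ)) γ n ω z = DD X γ n ω z := by
  have hsq : ∀ k, Integrable (fun ω => X k ω ^ 2) P := by
    intro k
    by_contra hcon
    have := h1 k
    rw [integral_undef hcon] at this
    exact zero_ne_one this
  set ξ : ℕ → Ω → ℂ := fun k ω => (X k ω : ℂ) with hξ
  have hm : ∀ k, Measurable (ξ k) := fun k => Complex.measurable_ofReal.comp (hX k)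
  have hL : ∀ k, MemLp (ξ k) 2 P := by
    intro k
    rw [← integrable_norm_rpow_iff (hm k).aestronglyMeasurable (by norm_num) (by norm_num)]
    refine (hsq k).congr (ae_of_all _ fun ω => ?_)
    simp [hξ]
  have hmean : ∀ k, ∫ ω, ξ k ω ∂P = 0 := by
    intro k
    have h2 : ∫ ω, ξ k ω ∂P = ((∫ ω, X k ω ∂P : ℝ) : ℂ) := by
      rw [hξ]; exact integral_ofReal
    rw [h2, h0 k]; simp
  have hind' : iIndepFun ξ P :=
    hind.comp (fun _ x => (x : ℂ)) (fun _ => Complex.measurable_ofReal)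
  have h3 : chaosDensity P ξ γ n ω z = dens P ξ pw γ n ω z := by
    unfold dens chaosDensity
    simp only [PP_pw]
  have hxx : ∀ k ω, xx pw k (ξ k ω) z = X k ω * cc k z := by
    intro k ω
    simp only [xx, pw, cc, hξ, ContinuousMap.coe_mk]
    rw [Complex.re_ofReal_mul]
    ring
  rw [h3, dens_eq P ξ hm hL hmean pw norm_pw_le γ hind']
  unfold DD PP
  simp only [hxx]
  congr 3
  apply Finset.sum_congr rfl
  intro k _
  unfold vv
  simp only [hxx, mul_pow]
  rw [integral_mul_const, h1 k, one_mul]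

include hX hind in
/-- Laplace transform of a linear form in independent standard Gaussians. -/
lemma laplace (hlaw : ∀ k, P.map (X k) = gaussianReal 0 1) (b : ℕ → ℝ) (n : ℕ) :
    ∫ ω, Real.exp (∑ k ∈ Finset.range n, X k ω * b k) ∂P =
      Real.exp (1 / 2 * ∑ k ∈ Finset.range n, b k ^ 2) := by
  have hind' : iIndepFun (fun k ω => b k * X k ω) P :=
    hind.comp (fun k x => b k * x) (fun k => by fun_prop)
  have h1 := iIndepFun.mgf_sum (t := 1) hind' (fun k => by have := hX k; fun_prop)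
    (Finset.range n)
  have h2 : ∀ k, mgf (fun ω => b k * X k ω) P 1 = Real.exp (1 / 2 * b k ^ 2) := by
    intro k
    have h3 : mgf (fun ω => b k * X k ω) P 1 = mgf (X k) P (b k) := by
      unfold mgf
      congr 1
      funext ω
      simp only [one_mul]
    rw [h3, mgf_gaussianReal (hlaw k)]
    congr 1
    simp
    ring
  rw [Finset.prod_congr rfl (fun k _ => h2 k), ← Real.exp_sum, ← Finset.mul_sum] at h1
  rw [← h1]
  unfold mgf
  congr 1
  funext ω
  simp only [Finset.sum_apply, one_mul]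
  congr 1
  apply Finset.sum_congr rfl
  intro k _
  ring

include hX hind in
lemma lintegral_laplace (hlaw : ∀ k, P.map (X k) = gaussianReal 0 1) (b : ℕ → ℝ) (n : ℕ) :
    ∫⁻ ω, ENNReal.ofReal (Real.exp (∑ k ∈ Finset.range n, X k ω * b k)) ∂P =
      ENNReal.ofReal (Real.exp (1 / 2 * ∑ k ∈ Finset.range n, b k ^ 2)) := by
  have h1 := laplace P X hX hind hlaw b n
  have hint : Integrable (fun ω => Real.exp (∑ k ∈ Finset.range n, X k ω * b k)) P := by
    by_contra hcon
    rw [integral_undef hcon] at h1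
    exact absurd h1.symm (Real.exp_pos _).ne'
  rw [← ofReal_integral_eq_lintegral_ofReal hint (ae_of_all _ fun ω => (Real.exp_pos _).le), h1]

/-- two-point function -/
noncomputable def FF (γ : ℝ) (n : ℕ) (z w : S1) : ℝ :=
  Real.exp (γ ^ 2 * ∑ k ∈ Finset.range n, cc k z * cc k w)

include hX hind in
lemma lintegral_DD_mul (hlaw : ∀ k, P.map (X k) = gaussianReal 0 1) (γ : ℝ) (n : ℕ) (z w : S1) :
    ∫⁻ ω, ENNReal.ofReal (DD X γ n ω z) * ENNReal.ofReal (DD X γ n ω w) ∂P =
      ENNReal.ofReal (FF γ n z w) := by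
  have h1 := lintegral_laplace P X hX hind hlaw (fun k => γ * (cc k z + cc k w)) n
  have h2 : ∀ ω, ENNReal.ofReal (DD X γ n ω z) * ENNReal.ofReal (DD X γ n ω w) =
      ENNReal.ofReal (Real.exp (- (γ ^ 2 / 2 * ∑ k ∈ Finset.range n, (cc k z ^ 2 + cc k w ^ 2)))) *
      ENNReal.ofReal (Real.exp (∑ k ∈ Finset.range n, X k ω * (γ * (cc k z + cc k w)))) := by
    intro ω
    rw [← ENNReal.ofReal_mul (DD_pos X γ n ω z).le, ← ENNReal.ofReal_mul (Real.exp_pos _).le]
    congr 1
    unfold DD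
    rw [← Real.exp_add, ← Real.exp_add]
    congr 1
    rw [Finset.sum_add_distrib]
    have : ∑ k ∈ Finset.range n, X k ω * (γ * (cc k z + cc k w)) =
        γ * ∑ k ∈ Finset.range n, X k ω * cc k z + γ * ∑ k ∈ Finset.range n, X k ω * cc k w := by
      rw [Finset.mul_sum, Finset.mul_sum, ← Finset.sum_add_distrib]
      apply Finset.sum_congr rfl
      intro k _
      ring
    rw [this]
    ring
  simp only [h2]
  rw [lintegral_const_mul' _ _ ENNReal.ofReal_ne_top, h1, ← ENNReal.ofReal_mul (Real.exp_pos _).le]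
  congr 1
  unfold FF
  rw [← Real.exp_add]
  congr 1
  rw [Finset.mul_sum, Finset.mul_sum, Finset.mul_sum, ← Finset.sum_neg_distrib,
    ← Finset.sum_add_distrib]
  apply Finset.sum_congr rfl
  intro k _
  ring

include hX hind in
lemma lintegral_DD (hlaw : ∀ k, P.map (X k) = gaussianReal 0 1) (γ : ℝ) (n : ℕ) (z : S1) :
    ∫⁻ ω, ENNReal.ofReal (DD X γ n ω z) ∂P = 1 := by
  have h1 := lintegral_laplace P X hX hind hlaw (fun k => γ * cc k z) n
  have h2 : ∀ ω, ENNReal.ofReal (DD X γ n ω z) =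
      ENNReal.ofReal (Real.exp (- (γ ^ 2 / 2 * ∑ k ∈ Finset.range n, cc k z ^ 2))) *
      ENNReal.ofReal (Real.exp (∑ k ∈ Finset.range n, X k ω * (γ * cc k z))) := by
    intro ω
    rw [← ENNReal.ofReal_mul (Real.exp_pos _).le]
    congr 1
    unfold DD
    rw [← Real.exp_add]
    congr 1
    have : ∑ k ∈ Finset.range n, X k ω * (γ * cc k z) =
        γ * ∑ k ∈ Finset.range n, X k ω * cc k z := by
      rw [Finset.mul_sum]
      apply Finset.sum_congr rfl
      intro k _
      ring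
    rw [this]
    ring
  simp only [h2]
  rw [lintegral_const_mul' _ _ ENNReal.ofReal_ne_top, h1, ← ENNReal.ofReal_mul (Real.exp_pos _).le,
    ← Real.exp_add]
  have : -(γ ^ 2 / 2 * ∑ k ∈ Finset.range n, cc k z ^ 2) +
      1 / 2 * ∑ k ∈ Finset.range n, (γ * cc k z) ^ 2 = 0 := by
    rw [Finset.mul_sum, Finset.mul_sum, ← Finset.sum_neg_distrib, ← Finset.sum_add_distrib]
    apply Finset.sum_eq_zero
    intro k _
    ring
  rw [this]
  simp

/-! ### The two-point function in angles -/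

lemma cc_expPoint (k : ℕ) (θ : ℝ) :
    cc k (expPoint θ) = Real.cos (((k : ℝ) + 1) * θ) / √((k : ℝ) + 1) := by
  unfold cc expPoint
  simp only
  rw [← Complex.exp_nat_mul]
  have : ((k + 1 : ℕ) : ℂ) * ((θ : ℂ) * Complex.I) = ((((k : ℝ) + 1) * θ : ℝ) : ℂ) * Complex.I := by
    push_cast; ring
  rw [this, Complex.exp_ofReal_mul_I_re]

lemma sum_cc (n : ℕ) (θ φ : ℝ) :
    ∑ k ∈ Finset.range n, cc k (expPoint θ) * cc k (expPoint φ) =
      1 / 2 * (Sn n (θ + φ) + Sn n (θ + -φ)) := by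
  unfold Sn
  rw [← Finset.sum_add_distrib, Finset.mul_sum]
  apply Finset.sum_congr rfl
  intro k _
  rw [cc_expPoint, cc_expPoint]
  have h1 : √((k : ℝ) + 1) * √((k : ℝ) + 1) = (k : ℝ) + 1 :=
    Real.mul_self_sqrt (by positivity)
  have e1 : ((k : ℝ) + 1) * (θ + φ) = ((k : ℝ) + 1) * θ + ((k : ℝ) + 1) * φ := by ring
  have e2 : ((k : ℝ) + 1) * (θ + -φ) = ((k : ℝ) + 1) * θ - ((k : ℝ) + 1) * φ := by ring
  rw [div_mul_div_comm, h1, e1, e2, Real.cos_add, Real.cos_sub]
  ring

lemma FF_pow_le (γ : ℝ) (n : ℕ) (θ φ : ℝ) :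
    FF γ n (expPoint θ) (expPoint φ) ^ 4 ≤
      1 / 2 * Real.exp (4 * γ ^ 2 * Sn n (θ + φ)) +
        1 / 2 * Real.exp (4 * γ ^ 2 * Sn n (θ + -φ)) := by
  unfold FF
  rw [sum_cc, ← Real.exp_nat_mul]
  have h1 : ((4 : ℕ) : ℝ) * (γ ^ 2 * (1 / 2 * (Sn n (θ + φ) + Sn n (θ + -φ)))) =
      2 * γ ^ 2 * Sn n (θ + φ) + 2 * γ ^ 2 * Sn n (θ + -φ) := by push_cast; ring
  rw [h1, Real.exp_add]
  have h2 : Real.exp (4 * γ ^ 2 * Sn n (θ + φ)) = Real.exp (2 * γ ^ 2 * Sn n (θ + φ)) ^ 2 := by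
    rw [← Real.exp_nat_mul]; congr 1; push_cast; ring
  have h3 : Real.exp (4 * γ ^ 2 * Sn n (θ + -φ)) = Real.exp (2 * γ ^ 2 * Sn n (θ + -φ)) ^ 2 := by
    rw [← Real.exp_nat_mul]; congr 1; push_cast; ring
  rw [h2, h3]
  nlinarith [sq_nonneg (Real.exp (2 * γ ^ 2 * Sn n (θ + φ)) -
    Real.exp (2 * γ ^ 2 * Sn n (θ + -φ)))]

lemma continuous_FF (γ : ℝ) (n : ℕ) : Continuous (fun p : S1 × S1 => FF γ n p.1 p.2) := by
  unfold FF
  have h1 : ∀ k, Continuous (fun p : S1 × S1 => cc k p.1) := fun k =>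
    (continuous_cc k).comp continuous_fst
  have h2 : ∀ k, Continuous (fun p : S1 × S1 => cc k p.2) := fun k =>
    (continuous_cc k).comp continuous_snd
  fun_prop

lemma CB_nonneg : 0 ≤ CB := by
  have h := integral_exp_Sn_le 0 0 le_rfl (by norm_num) 0
  refine le_trans ?_ h
  apply intervalIntegral.integral_nonneg (by linarith [Real.pi_pos])
  intro u _
  exact (Real.exp_pos _).le

lemma lintegral_FF_pow (γ : ℝ) (hγ : 4 * γ ^ 2 ≤ 1 / 2) (n : ℕ) (w : S1) :
    ∫⁻ z, ENNReal.ofReal (FF γ n z w ^ 4) ∂arcLength ≤ ENNReal.ofReal CB := by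
  obtain ⟨φ, rfl⟩ : ∃ φ : ℝ, w = expPoint φ := by
    refine ⟨Complex.arg w, ?_⟩
    apply Subtype.ext
    have hw : ‖(w : ℂ)‖ = 1 := by simp
    have := Complex.norm_mul_exp_arg_mul_I (w : ℂ)
    rw [hw, Complex.ofReal_one, one_mul] at this
    exact this.symm
  have hc : Continuous (fun z : S1 => FF γ n z (expPoint φ) ^ 4) :=
    ((continuous_FF γ n).comp (continuous_id.prodMk continuous_const)).pow 4
  unfold arcLength
  rw [lintegral_map hc.measurable.ennreal_ofReal continuous_expPoint.measurable]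
  have hSn := continuous_Sn n
  have hi1 : IntervalIntegrable (fun θ => 1 / 2 * Real.exp (4 * γ ^ 2 * Sn n (θ + φ))) volume
      (-Real.pi) Real.pi := by
    apply Continuous.intervalIntegrable; fun_prop
  have hi2 : IntervalIntegrable (fun θ => 1 / 2 * Real.exp (4 * γ ^ 2 * Sn n (θ + -φ))) volume
      (-Real.pi) Real.pi := by
    apply Continuous.intervalIntegrable; fun_prop
  have hle : -Real.pi ≤ Real.pi := by linarith [Real.pi_pos]
  calc ∫⁻ θ in Set.Ioc (-Real.pi) Real.pi,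
        ENNReal.ofReal (FF γ n (expPoint θ) (expPoint φ) ^ 4)
      ≤ ∫⁻ θ in Set.Ioc (-Real.pi) Real.pi,
        ENNReal.ofReal (1 / 2 * Real.exp (4 * γ ^ 2 * Sn n (θ + φ)) +
        1 / 2 * Real.exp (4 * γ ^ 2 * Sn n (θ + -φ))) := by
        apply lintegral_mono
        intro θ
        exact ENNReal.ofReal_le_ofReal (FF_pow_le γ n θ φ)
    _ = ENNReal.ofReal (∫ θ in Set.Ioc (-Real.pi) Real.pi,
        (1 / 2 * Real.exp (4 * γ ^ 2 * Sn n (θ + φ)) +
        1 / 2 * Real.exp (4 * γ ^ 2 * Sn n (θ + -φ)))) := by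
        rw [ofReal_integral_eq_lintegral_ofReal]
        · have := hi1.add hi2
          rw [intervalIntegrable_iff_integrableOn_Ioc_of_le hle] at this
          exact this
        · refine ae_of_all _ fun θ => ?_
          positivity
    _ ≤ ENNReal.ofReal CB := by
        apply ENNReal.ofReal_le_ofReal
        rw [← intervalIntegral.integral_of_le hle, intervalIntegral.integral_add hi1 hi2,
          intervalIntegral.integral_const_mul, intervalIntegral.integral_const_mul]
        have e1 := integral_exp_Sn_le n (4 * γ ^ 2) (by positivity) hγ φ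
        have e2 := integral_exp_Sn_le n (4 * γ ^ 2) (by positivity) hγ (-φ)
        linarith

lemma FF_pos (γ : ℝ) (n : ℕ) (z w : S1) : 0 < FF γ n z w := Real.exp_pos _

lemma FF_le (γ : ℝ) (n : ℕ) (z w : S1) (ρ : ℝ) (hρ : 0 < ρ) :
    FF γ n z w ≤ ρ⁻¹ + ρ ^ 3 * FF γ n z w ^ 4 := by
  have hF := FF_pos γ n z w
  rcases le_total (FF γ n z w) ρ⁻¹ with h | h
  · have : 0 ≤ ρ ^ 3 * FF γ n z w ^ 4 := by positivity
    linarith
  · have h1 : 1 ≤ ρ * FF γ n z w := by
      calc (1 : ℝ) = ρ * ρ⁻¹ := (mul_inv_cancel₀ hρ.ne').symm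
        _ ≤ ρ * FF γ n z w := by gcongr
    have h2 : 1 ≤ (ρ * FF γ n z w) ^ 3 := one_le_pow₀ h1
    have h3 : 0 < ρ⁻¹ := by positivity
    calc FF γ n z w = FF γ n z w * 1 := (mul_one _).symm
      _ ≤ FF γ n z w * (ρ * FF γ n z w) ^ 3 := by gcongr
      _ = ρ ^ 3 * FF γ n z w ^ 4 := by ring
      _ ≤ _ := by linarith

lemma measurable_DD (hX : ∀ k, Measurable (X k)) (γ : ℝ) (n : ℕ) :
    Measurable (fun p : Ω × S1 => DD X γ n p.1 p.2) := by
  unfold DD
  have h1 : ∀ k, Measurable (fun p : Ω × S1 => X k p.1) := fun k => (hX k).comp measurable_fst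
  have h2 : ∀ k, Measurable (fun p : Ω × S1 => cc k p.2) := fun k =>
    (continuous_cc k).measurable.comp measurable_snd
  have h3 : Measurable (fun p : Ω × S1 => ∑ k ∈ Finset.range n, X k p.1 * cc k p.2) :=
    Finset.measurable_sum _ fun k _ => (h1 k).mul (h2 k)
  have h4 : Measurable (fun p : Ω × S1 => ∑ k ∈ Finset.range n, cc k p.2 ^ 2) :=
    Finset.measurable_sum _ fun k _ => (h2 k).pow_const 2
  exact ((h3.const_mul γ).sub (h4.const_mul _)).exp

omit [IsProbabilityMeasure P] in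
lemma sq_lintegral_swap [SFinite P] (g : Ω → S1 → ℝ≥0∞)
    (hg : Measurable (fun p : Ω × S1 => g p.1 p.2)) (A : Set S1) :
    ∫⁻ ω, (∫⁻ z in A, g ω z ∂arcLength) ^ 2 ∂P =
      ∫⁻ z in A, ∫⁻ w in A, ∫⁻ ω, g ω z * g ω w ∂P ∂arcLength ∂arcLength := by
  have hmω : ∀ ω, Measurable (fun z => g ω z) := fun ω =>
    hg.comp (measurable_const.prodMk measurable_id)
  have h1 : ∀ ω, (∫⁻ z in A, g ω z ∂arcLength) ^ 2 =
      ∫⁻ z in A, ∫⁻ w in A, g ω z * g ω w ∂arcLength ∂arcLength := by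
    intro ω
    have e1 : ∀ z, ∫⁻ w in A, g ω z * g ω w ∂arcLength =
        g ω z * ∫⁻ w in A, g ω w ∂arcLength := fun z => lintegral_const_mul _ (hmω ω)
    simp only [e1]
    rw [lintegral_mul_const _ (hmω ω), sq]
  simp only [h1]
  rw [lintegral_lintegral_swap]
  · apply lintegral_congr
    intro z
    rw [lintegral_lintegral_swap]
    have b3 : Measurable (fun p : Ω × S1 => ((p.1, z) : Ω × S1)) := by fun_prop
    have c3 : Measurable (fun p : Ω × S1 => g p.1 z) := hg.comp b3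
    exact (c3.mul hg).aemeasurable
  · have b1 : Measurable (fun q : (Ω × S1) × S1 => ((q.1.1, q.1.2) : Ω × S1)) := by fun_prop
    have b2 : Measurable (fun q : (Ω × S1) × S1 => ((q.1.1, q.2) : Ω × S1)) := by fun_prop
    have c1 : Measurable (fun q : (Ω × S1) × S1 => g q.1.1 q.1.2) := hg.comp b1
    have c2 : Measurable (fun q : (Ω × S1) × S1 => g q.1.1 q.2) := hg.comp b2
    have a5 : Measurable (fun q : (Ω × S1) × S1 => g q.1.1 q.1.2 * g q.1.1 q.2) := c1.mul c2
    have a6 : Measurable (fun p : Ω × S1 => ∫⁻ w in A, g p.1 p.2 * g p.1 w ∂arcLength) :=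
      Measurable.lintegral_prod_right' (ν := arcLength.restrict A) a5
    exact a6.aemeasurable

include hX hind in
/-- **Second moment bound.** -/
theorem second_moment (hlaw : ∀ k, P.map (X k) = gaussianReal 0 1) (γ : ℝ)
    (hγ : 4 * γ ^ 2 ≤ 1 / 2) (n : ℕ) (A : Set S1) (ρ : ℝ) (hρ : 0 < ρ)
    (hAρ : arcLength A ≤ ENNReal.ofReal (ρ ^ 2)) :
    ∫⁻ ω, (∫⁻ z in A, ENNReal.ofReal (DD X γ n ω z) ∂arcLength) ^ 2 ∂P ≤
      ENNReal.ofReal ((1 + 2 * Real.pi * CB) * ρ ^ 3) := by
  rw [sq_lintegral_swap P (fun ω z => ENNReal.ofReal (DD X γ n ω z))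
    (measurable_DD X hX γ n).ennreal_ofReal A]
  simp only [lintegral_DD_mul P X hX hind hlaw γ n]
  have hFm : Measurable (fun p : S1 × S1 => ENNReal.ofReal (FF γ n p.1 p.2 ^ 4)) :=
    ((continuous_FF γ n).pow 4).measurable.ennreal_ofReal
  calc ∫⁻ z in A, ∫⁻ w in A, ENNReal.ofReal (FF γ n z w) ∂arcLength ∂arcLength
      = ∫⁻ w in A, ∫⁻ z in A, ENNReal.ofReal (FF γ n z w) ∂arcLength ∂arcLength := by
        rw [lintegral_lintegral_swap]
        exact (continuous_FF γ n).measurable.ennreal_ofReal.aemeasurable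
    _ ≤ ∫⁻ w in A, (ENNReal.ofReal ρ⁻¹ * ENNReal.ofReal (ρ ^ 2) +
          ENNReal.ofReal (ρ ^ 3) * ENNReal.ofReal CB) ∂arcLength := by
        apply lintegral_mono
        intro w
        calc ∫⁻ z in A, ENNReal.ofReal (FF γ n z w) ∂arcLength
            ≤ ∫⁻ z in A, (ENNReal.ofReal ρ⁻¹ +
              ENNReal.ofReal (ρ ^ 3) * ENNReal.ofReal (FF γ n z w ^ 4)) ∂arcLength := by
              apply lintegral_mono
              intro z
              simp only
              rw [← ENNReal.ofReal_mul (by positivity), ← ENNReal.ofReal_add (by positivity)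
                (by positivity)]
              exact ENNReal.ofReal_le_ofReal (FF_le γ n z w ρ hρ)
          _ = ENNReal.ofReal ρ⁻¹ * arcLength A +
              ENNReal.ofReal (ρ ^ 3) * ∫⁻ z in A, ENNReal.ofReal (FF γ n z w ^ 4) ∂arcLength := by
              rw [lintegral_add_left measurable_const, lintegral_const,
                lintegral_const_mul' _ _ ENNReal.ofReal_ne_top]
              simp
          _ ≤ ENNReal.ofReal ρ⁻¹ * ENNReal.ofReal (ρ ^ 2) +
                ENNReal.ofReal (ρ ^ 3) * ENNReal.ofReal CB := by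
              have e3 : ∫⁻ z in A, ENNReal.ofReal (FF γ n z w ^ 4) ∂arcLength ≤
                  ENNReal.ofReal CB :=
                (setLIntegral_le_lintegral _ _).trans (lintegral_FF_pow γ hγ n w)
              gcongr
    _ = (ENNReal.ofReal ρ⁻¹ * ENNReal.ofReal (ρ ^ 2)) * arcLength A +
          (ENNReal.ofReal (ρ ^ 3) * ENNReal.ofReal CB) * arcLength A := by
        rw [lintegral_const, add_mul]
        simp
    _ ≤ (ENNReal.ofReal ρ⁻¹ * ENNReal.ofReal (ρ ^ 2)) * ENNReal.ofReal (ρ ^ 2) +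
          (ENNReal.ofReal (ρ ^ 3) * ENNReal.ofReal CB) * ENNReal.ofReal (2 * Real.pi) := by
        gcongr
        exact (measure_mono (Set.subset_univ _)).trans arcLength_univ.le
    _ = ENNReal.ofReal ((1 + 2 * Real.pi * CB) * ρ ^ 3) := by
        have hC := CB_nonneg
        have hp := Real.pi_pos
        rw [← ENNReal.ofReal_mul (by positivity), ← ENNReal.ofReal_mul (by positivity),
          ← ENNReal.ofReal_mul (by positivity), ← ENNReal.ofReal_mul (by positivity),
          ← ENNReal.ofReal_add (by positivity) (by positivity)]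
        congr 1
        field_simp

end Pool.Agent.Helper711.ChaosGauss
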