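import Mathlib
import Pool.Agent.Helper711.ChaosGauss

/-!
The total mass of the Gaussian chaos does not tend to zero, almost surely.
-/

open MeasureTheory ProbabilityTheory Filter Topology Set
open scoped ENNReal NNReal BoundedContinuousFunction

set_option linter.unusedSectionVars false

namespace Pool.Agent.Helper711.ChaosMass
open Pool.Agent.Helper711.ChaosDefs Pool.Agent.Helper711.ChaosBase Pool.Agent.Helper711.ChaosKernel
  Pool.Agent.Helper711.ChaosGauss

/-- total mass as a functional of the coefficient sequence -/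
noncomputable def mass (γ : ℝ) (n : ℕ) (y : ℕ → ℝ) : ℝ≥0∞ :=
  ∫⁻ z, ENNReal.ofReal (DD (fun k (y : ℕ → ℝ) => y k) γ n y z) ∂arcLength

lemma measurable_mass (γ : ℝ) (n : ℕ) : Measurable (mass γ n) := by
  unfold mass
  have h := (measurable_DD (Ω := ℕ → ℝ) (fun k (y : ℕ → ℝ) => y k)
    (fun k => measurable_pi_apply k) γ n).ennreal_ofReal
  exact Measurable.lintegral_prod_right' (ν := arcLength) h

/-- Changing finitely many coefficients changes the total mass by a bounded factor. -/
lemma mass_le (γ : ℝ) (n N : ℕ) (hN : N ≤ n) (y y' : ℕ → ℝ) (hy : ∀ k, N ≤ k → y k = y' k) :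
    mass γ n y ≤ ENNReal.ofReal (Real.exp (|γ| * ∑ k ∈ Finset.range N, |y k - y' k|)) *
      mass γ n y' := by
  unfold mass
  rw [← lintegral_const_mul' _ _ ENNReal.ofReal_ne_top]
  apply lintegral_mono
  intro z
  simp only
  rw [← ENNReal.ofReal_mul (Real.exp_pos _).le]
  apply ENNReal.ofReal_le_ofReal
  unfold DD
  rw [← Real.exp_add]
  apply Real.exp_le_exp.mpr
  have h1 : ∑ k ∈ Finset.range n, y k * cc k z - ∑ k ∈ Finset.range n, y' k * cc k z =
      ∑ k ∈ Finset.range N, (y k - y' k) * cc k z := by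
    rw [← Finset.sum_sub_distrib]
    symm
    rw [← Finset.sum_subset (Finset.range_mono hN)]
    · apply Finset.sum_congr rfl
      intro k _
      ring
    · intro k _ hk
      have : N ≤ k := by simpa using hk
      rw [hy k this]; ring
  have h2 : γ * ∑ k ∈ Finset.range N, (y k - y' k) * cc k z ≤
      |γ| * ∑ k ∈ Finset.range N, |y k - y' k| := by
    refine (le_abs_self _).trans ?_
    rw [abs_mul]
    gcongr
    refine (Finset.abs_sum_le_sum_abs _ _).trans ?_
    apply Finset.sum_le_sum
    intro k _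
    rw [abs_mul]
    exact mul_le_of_le_one_right (abs_nonneg _) (abs_cc_le k z)
  have h3 : γ * ∑ k ∈ Finset.range n, y k * cc k z =
      γ * ∑ k ∈ Finset.range n, y' k * cc k z +
        γ * ∑ k ∈ Finset.range N, (y k - y' k) * cc k z := by
    rw [← h1]; ring
  rw [h3]
  linarith

variable {Ω : Type*} {mΩ : MeasurableSpace Ω} (P : Measure Ω) [IsProbabilityMeasure P]
  (X : ℕ → Ω → ℝ) (hX : ∀ k, Measurable (X k)) (hind : iIndepFun X P)

include hX hind in
/-- Zero-one law for the event that the total mass tends to zero. -/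
lemma zero_one (γ : ℝ) :
    P {ω | Tendsto (fun n => mass γ n (fun k => X k ω)) atTop (𝓝 0)} = 0 ∨
    P {ω | Tendsto (fun n => mass γ n (fun k => X k ω)) atTop (𝓝 0)} = 1 := by
  apply measure_zero_or_one_of_measurableSet_limsup_atTop
    (s := fun n => MeasurableSpace.comap (X n) inferInstance) (fun n => (hX n).comap_le) hind.iIndep
  rw [limsup_eq_iInf_iSup_of_nat, MeasurableSpace.measurableSet_iInf]
  intro N
  set mN : MeasurableSpace Ω := ⨆ i, ⨆ (_ : i ≥ N), MeasurableSpace.comap (X i) inferInstance
    with hmN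
  -- replace the first coefficients by zero
  set Y : Ω → ℕ → ℝ := fun ω k => if k < N then 0 else X k ω with hY
  have hYm : Measurable[mN] Y := by
    apply measurable_pi_lambda
    intro k
    by_cases hk : k < N
    · have : (fun ω => Y ω k) = fun _ => 0 := by
        funext ω; simp [hY, hk]
      rw [this]
      exact measurable_const
    · have h1 : (fun ω => Y ω k) = X k := by
        funext ω; simp [hY, hk]
      rw [h1]
      have h2 : MeasurableSpace.comap (X k) inferInstance ≤ mN :=
        le_iSup₂_of_le k (not_lt.mp hk) le_rfl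
      exact Measurable.mono (comap_measurable (X k)) h2 le_rfl
  have hset : {ω | Tendsto (fun n => mass γ n (fun k => X k ω)) atTop (𝓝 0)} =
      {ω | Tendsto (fun n => mass γ n (Y ω)) atTop (𝓝 0)} := by
    ext ω
    simp only [Set.mem_ofPred_eq]
    have hagree : ∀ k, N ≤ k → X k ω = Y ω k := by
      intro k hk
      simp [hY, not_lt.mpr hk]
    constructor
    · intro h
      have h2 := ENNReal.Tendsto.const_mul (a := ENNReal.ofReal
        (Real.exp (|γ| * ∑ k ∈ Finset.range N, |Y ω k - X k ω|))) h
        (Or.inr ENNReal.ofReal_ne_top)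
      rw [mul_zero] at h2
      apply tendsto_of_tendsto_of_tendsto_of_le_of_le' tendsto_const_nhds h2
        (Eventually.of_forall fun n => bot_le)
      filter_upwards [eventually_ge_atTop N] with n hn
      exact mass_le γ n N hn (Y ω) (fun k => X k ω) (fun k hk => (hagree k hk).symm)
    · intro h
      have h2 := ENNReal.Tendsto.const_mul (a := ENNReal.ofReal
        (Real.exp (|γ| * ∑ k ∈ Finset.range N, |X k ω - Y ω k|))) h
        (Or.inr ENNReal.ofReal_ne_top)
      rw [mul_zero] at h2
      apply tendsto_of_tendsto_of_tendsto_of_le_of_le' tendsto_const_nhds h2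
        (Eventually.of_forall fun n => bot_le)
      filter_upwards [eventually_ge_atTop N] with n hn
      exact mass_le γ n N hn (fun k => X k ω) (Y ω) hagree
  rw [hset]
  exact @measurableSet_tendsto Ω ℝ≥0∞ ℕ mN _ _ atTop _ (𝓝 0) _ _
    (fun n ω => mass γ n (Y ω)) (fun n => (measurable_mass γ n).comp hYm)

include hX hind in
lemma lintegral_mass (hlaw : ∀ k, P.map (X k) = gaussianReal 0 1) (γ : ℝ) (n : ℕ) :
    ∫⁻ ω, mass γ n (fun k => X k ω) ∂P = ENNReal.ofReal (2 * Real.pi) := by
  have h1 : ∀ ω, mass γ n (fun k => X k ω) =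
      ∫⁻ z, ENNReal.ofReal (DD X γ n ω z) ∂arcLength := fun ω => rfl
  simp only [h1]
  rw [lintegral_lintegral_swap (measurable_DD X hX γ n).ennreal_ofReal.aemeasurable]
  simp only [lintegral_DD P X hX hind hlaw γ n]
  rw [lintegral_one, arcLength_univ]

include hX hind in
lemma lintegral_mass_sq (hlaw : ∀ k, P.map (X k) = gaussianReal 0 1) (γ : ℝ)
    (hγ : 4 * γ ^ 2 ≤ 1 / 2) (n : ℕ) :
    ∫⁻ ω, mass γ n (fun k => X k ω) ^ 2 ∂P ≤ ENNReal.ofReal ((1 + 2 * Real.pi * CB) * 3 ^ 3) := by
  have h := second_moment P X hX hind hlaw γ hγ n Set.univ 3 (by norm_num) (by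
    rw [arcLength_univ]
    apply ENNReal.ofReal_le_ofReal
    have := Real.pi_lt_d2
    linarith)
  simp only [Measure.restrict_univ] at h
  exact h

include hX hind in
/-- **Non-degeneracy.** -/
theorem ae_not_tendsto_zero (hlaw : ∀ k, P.map (X k) = gaussianReal 0 1) (γ : ℝ)
    (hγ : 4 * γ ^ 2 ≤ 1 / 2) :
    ∀ᵐ ω ∂P, ¬ Tendsto (fun n => mass γ n (fun k => X k ω)) atTop (𝓝 0) := by
  rw [ae_iff]
  simp only [not_not]
  rcases zero_one P X hX hind γ with h | h
  · exact h
  exfalso
  have hmeas : ∀ n, Measurable (fun ω => mass γ n (fun k => X k ω)) := fun n =>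
    (measurable_mass γ n).comp (measurable_pi_lambda _ hX)
  have hae : ∀ᵐ ω ∂P, Tendsto (fun n => mass γ n (fun k => X k ω)) atTop (𝓝 0) := by
    have hms : MeasurableSet {ω | Tendsto (fun n => mass γ n (fun k => X k ω)) atTop (𝓝 0)} :=
      measurableSet_tendsto (𝓝 0) hmeas
    rw [← prob_compl_eq_zero_iff hms] at h
    exact h
  set R : ℝ := (1 + 2 * Real.pi * CB) * 3 ^ 3 with hR
  have hR1 : 1 ≤ R := by
    have h1 := CB_nonneg
    have h2 := Real.pi_pos
    have : 0 ≤ 2 * Real.pi * CB := by positivity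
    rw [hR]; nlinarith
  -- truncation at the level `R`
  have hmin : Tendsto (fun n => ∫⁻ ω, min (mass γ n (fun k => X k ω)) (ENNReal.ofReal R) ∂P)
      atTop (𝓝 (∫⁻ _ω, 0 ∂P)) := by
    apply tendsto_lintegral_of_dominated_convergence (fun _ => ENNReal.ofReal R)
    · intro n
      exact (hmeas n).min measurable_const
    · intro n
      exact ae_of_all _ fun ω => min_le_right _ _
    · simp
    · filter_upwards [hae] with ω hω
      have h1 := hω.min (tendsto_const_nhds (x := ENNReal.ofReal R))
      simpa using h1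
  rw [lintegral_zero] at hmin
  have hbound : ∀ n, ENNReal.ofReal (2 * Real.pi) ≤
      ∫⁻ ω, min (mass γ n (fun k => X k ω)) (ENNReal.ofReal R) ∂P + 1 := by
    intro n
    rw [← lintegral_mass P X hX hind hlaw γ n]
    have h1 : ∀ t : ℝ≥0∞, t ≤ min t (ENNReal.ofReal R) + t ^ 2 / ENNReal.ofReal R := by
      intro t
      rcases le_total t (ENNReal.ofReal R) with ht | ht
      · rw [min_eq_left ht]
        exact le_self_add
      · refine le_trans ?_ le_add_self
        rw [ENNReal.le_div_iff_mul_le (Or.inl (by positivity)) (Or.inl ENNReal.ofReal_ne_top), sq]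
        gcongr
    calc ∫⁻ ω, mass γ n (fun k => X k ω) ∂P
        ≤ ∫⁻ ω, (min (mass γ n (fun k => X k ω)) (ENNReal.ofReal R) +
          mass γ n (fun k => X k ω) ^ 2 / ENNReal.ofReal R) ∂P :=
          lintegral_mono fun ω => h1 _
      _ = ∫⁻ ω, min (mass γ n (fun k => X k ω)) (ENNReal.ofReal R) ∂P +
          (∫⁻ ω, mass γ n (fun k => X k ω) ^ 2 ∂P) / ENNReal.ofReal R := by
          rw [lintegral_add_left ((hmeas n).min measurable_const)]
          congr 1
          simp only [div_eq_mul_inv]
          rw [lintegral_mul_const _ ((hmeas n).pow_const 2)]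
      _ ≤ _ := by
          gcongr
          refine (ENNReal.div_le_div_right (lintegral_mass_sq P X hX hind hlaw γ hγ n) _).trans ?_
          rw [← hR]
          exact ENNReal.div_self_le_one
  have hlim := hmin.add_const 1
  have h2 := ge_of_tendsto' hlim hbound
  rw [zero_add, ENNReal.ofReal_le_one] at h2
  linarith [Real.pi_gt_three]

end Pool.Agent.Helper711.ChaosMass
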