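import Mathlib
import Pool.Agent.Helper711.ChaosMass
import Pool.Agent.Helper711.ChaosDim

/-!
Almost sure Hölder regularity of the Gaussian chaos, hence positive Hausdorff dimension.
-/

open MeasureTheory ProbabilityTheory Filter Topology Set
open scoped ENNReal NNReal BoundedContinuousFunction

set_option linter.unusedSectionVars false

namespace Pool.Agent.Helper711.ChaosHolder
open Pool.Agent.Helper711.ChaosDefs Pool.Agent.Helper711.ChaosBase Pool.Agent.Helper711.ChaosKernel
  Pool.Agent.Helper711.ChaosGauss Pool.Agent.Helper711.ChaosMass Pool.Agent.Helper711.ChaosDim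

/-- cutoff function around `x` at scale `r` -/
noncomputable def cut (x : S1) (r : ℝ) : C(S1, ℝ) :=
  ⟨fun z => max 0 (min 1 (2 - dist z x / r)), by fun_prop⟩

lemma cut_nonneg (x : S1) (r : ℝ) (z : S1) : 0 ≤ cut x r z := le_max_left _ _

lemma cut_le_one (x : S1) (r : ℝ) (z : S1) : cut x r z ≤ 1 :=
  max_le zero_le_one (min_le_left _ _)

lemma cut_eq_one (x : S1) (r : ℝ) (hr : 0 < r) (z : S1) (hz : z ∈ Metric.closedBall x r) :
    cut x r z = 1 := by
  rw [Metric.mem_closedBall] at hz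
  have h1 : dist z x / r ≤ 1 := by rw [div_le_one hr]; exact hz
  change max 0 (min 1 (2 - dist z x / r)) = 1
  rw [min_eq_left (by linarith), max_eq_right zero_le_one]

lemma cut_eq_zero (x : S1) (r : ℝ) (hr : 0 < r) (z : S1) (hz : z ∉ Metric.closedBall x (2 * r)) :
    cut x r z = 0 := by
  rw [Metric.mem_closedBall, not_le] at hz
  have h1 : 2 ≤ dist z x / r := by rw [le_div_iff₀ hr]; exact hz.le
  change max 0 (min 1 (2 - dist z x / r)) = 0
  exact max_eq_left ((min_le_right _ _).trans (by linarith))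

variable {Ω : Type*} {mΩ : MeasurableSpace Ω} (P : Measure Ω) [IsProbabilityMeasure P]
  (X : ℕ → Ω → ℝ) (hX : ∀ k, Measurable (X k)) (hind : iIndepFun X P)

lemma continuous_DD (γ : ℝ) (n : ℕ) (ω : Ω) : Continuous (DD X γ n ω) := by
  unfold DD
  have := continuous_cc
  fun_prop

lemma integrable_mul_DD (f : C(S1, ℝ)) (γ : ℝ) (n : ℕ) (ω : Ω) :
    Integrable (fun z => f z * DD X γ n ω z) arcLength :=
  (BoundedContinuousFunction.mkOfCompact
    (⟨fun z => f z * DD X γ n ω z, f.continuous.mul (continuous_DD X γ n ω)⟩ : C(S1, ℝ))).integrable _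

/-- integral of the cutoff against the density -/
noncomputable def WW (γ : ℝ) (x : S1) (r : ℝ) (n : ℕ) (ω : Ω) : ℝ :=
  ∫ z, cut x r z * DD X γ n ω z ∂arcLength

lemma WW_le (γ : ℝ) (x : S1) (r : ℝ) (hr : 0 < r) (n : ℕ) (ω : Ω) :
    ENNReal.ofReal (WW X γ x r n ω) ≤
      ∫⁻ z in Metric.closedBall x (2 * r), ENNReal.ofReal (DD X γ n ω z) ∂arcLength := by
  unfold WW
  rw [ofReal_integral_eq_lintegral_ofReal (integrable_mul_DD X (cut x r) γ n ω)
    (ae_of_all _ fun z => mul_nonneg (cut_nonneg x r z) (DD_pos X γ n ω z).le),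
    ← lintegral_indicator Metric.isClosed_closedBall.measurableSet]
  apply lintegral_mono
  intro z
  by_cases hz : z ∈ Metric.closedBall x (2 * r)
  · rw [Set.indicator_of_mem hz]
    apply ENNReal.ofReal_le_ofReal
    exact mul_le_of_le_one_left (DD_pos X γ n ω z).le (cut_le_one x r z)
  · rw [Set.indicator_of_notMem hz]
    simp only
    rw [cut_eq_zero x r hr z hz]
    simp

lemma measurable_WW (hX : ∀ k, Measurable (X k)) (γ : ℝ) (x : S1) (r : ℝ) (n : ℕ) :
    Measurable (WW X γ x r n) := by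
  unfold WW
  apply StronglyMeasurable.measurable
  apply StronglyMeasurable.integral_prod_right
  apply Measurable.stronglyMeasurable
  exact ((cut x r).continuous.measurable.comp measurable_snd).mul (measurable_DD X hX γ n)

/-- limiting second moment functional -/
noncomputable def VV (γ : ℝ) (m j : ℕ) (ω : Ω) : ℝ≥0∞ :=
  liminf (fun n => ENNReal.ofReal (WW X γ (xg m j) (8 * (1 / 16) ^ m) n ω) ^ 2) atTop

lemma measurable_VV (hX : ∀ k, Measurable (X k)) (γ : ℝ) (m j : ℕ) :
    Measurable (VV X γ m j) := by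
  unfold VV
  exact Measurable.liminf fun n => (measurable_WW X hX γ _ _ n).ennreal_ofReal.pow_const 2

include hX hind in
lemma lintegral_VV (hlaw : ∀ k, P.map (X k) = gaussianReal 0 1) (γ : ℝ)
    (hγ : 4 * γ ^ 2 ≤ 1 / 2) (m j : ℕ) :
    ∫⁻ ω, VV X γ m j ω ∂P ≤
      ENNReal.ofReal ((1 + 2 * Real.pi * CB) * (13 * (1 / 4) ^ m) ^ 3) := by
  unfold VV
  refine (lintegral_liminf_le
    (fun n => (measurable_WW X hX γ _ _ n).ennreal_ofReal.pow_const 2)).trans ?_
  apply liminf_le_of_le
  · isBoundedDefault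
  intro b hb
  obtain ⟨n, hn⟩ := hb.exists
  refine hn.trans ?_
  have hr : (0 : ℝ) < 8 * (1 / 16) ^ m := by positivity
  have hball : arcLength (Metric.closedBall (xg m j) (2 * (8 * (1 / 16) ^ m))) ≤
      ENNReal.ofReal ((13 * (1 / 4) ^ m) ^ 2) := by
    refine (arcLength_closedBall _ _ (by positivity)).trans ?_
    apply ENNReal.ofReal_le_ofReal
    have h1 : ((1 : ℝ) / 4) ^ m * (1 / 4) ^ m = (1 / 16) ^ m := by
      rw [← mul_pow]; norm_num
    have h2 : (0 : ℝ) < (1 / 16) ^ m := by positivity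
    calc 10 * (2 * (8 * (1 / 16 : ℝ) ^ m)) = 160 * (1 / 16) ^ m := by ring
      _ ≤ 169 * (1 / 16) ^ m := by gcongr; norm_num
      _ = (13 * (1 / 4) ^ m) ^ 2 := by rw [← h1]; ring
  refine le_trans ?_ (second_moment P X hX hind hlaw γ hγ n
    (Metric.closedBall (xg m j) (2 * (8 * (1 / 16) ^ m))) (13 * (1 / 4) ^ m) (by positivity) hball)
  apply lintegral_mono
  intro ω
  simp only
  gcongr
  exact WW_le X γ (xg m j) (8 * (1 / 16) ^ m) hr n ω

include hX hind in
lemma ae_VV_lt (hlaw : ∀ k, P.map (X k) = gaussianReal 0 1) (γ : ℝ)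
    (hγ : 4 * γ ^ 2 ≤ 1 / 2) :
    ∀ᵐ ω ∂P, ∀ᶠ m : ℕ in atTop, ∀ j < 16 ^ m, VV X γ m j ω < ENNReal.ofReal ((1 / 2) ^ m) := by
  set Q : ℝ := (1 + 2 * Real.pi * CB) * 13 ^ 3 with hQ
  have hQ0 : 0 ≤ Q := by
    have h1 := CB_nonneg
    have h2 := Real.pi_pos
    positivity
  set E : ℕ → Set Ω := fun m => ⋃ j ∈ Finset.range (16 ^ m),
    {ω | ENNReal.ofReal ((1 / 2) ^ m) ≤ VV X γ m j ω} with hE
  have hPE : ∀ m, P (E m) ≤ ENNReal.ofReal (Q * (1 / 2) ^ m) := by
    intro m
    rw [hE]
    refine (measure_biUnion_finset_le _ _).trans ?_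
    have h1 : ∀ j ∈ Finset.range (16 ^ m),
        P {ω | ENNReal.ofReal ((1 / 2) ^ m) ≤ VV X γ m j ω} ≤
          ENNReal.ofReal (Q * (1 / 32) ^ m) := by
      intro j _
      refine (meas_ge_le_lintegral_div (measurable_VV X hX γ m j).aemeasurable (by positivity)
        ENNReal.ofReal_ne_top).trans ?_
      refine (ENNReal.div_le_div_right (lintegral_VV P X hX hind hlaw γ hγ m j) _).trans ?_
      rw [← ENNReal.ofReal_div_of_pos (by positivity)]
      apply ENNReal.ofReal_le_ofReal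
      have h3 : ((1 : ℝ) / 4) ^ m * (1 / 4) ^ m * (1 / 4) ^ m = (1 / 64) ^ m := by
        rw [← mul_pow, ← mul_pow]; norm_num
      have h4 : ((1 : ℝ) / 64) ^ m = (1 / 32) ^ m * (1 / 2) ^ m := by
        rw [← mul_pow]; norm_num
      have h5 : (1 + 2 * Real.pi * CB) * (13 * (1 / 4) ^ m) ^ 3 =
          Q * (1 / 32) ^ m * (1 / 2) ^ m := by
        calc (1 + 2 * Real.pi * CB) * (13 * (1 / 4) ^ m) ^ 3 =
            Q * (((1 : ℝ) / 4) ^ m * (1 / 4) ^ m * (1 / 4) ^ m) := by rw [hQ]; ring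
          _ = _ := by rw [h3, h4]; ring
      rw [h5, mul_div_assoc, div_self (by positivity), mul_one]
    refine (Finset.sum_le_sum h1).trans ?_
    rw [Finset.sum_const, Finset.card_range, nsmul_eq_mul]
    have h6 : ((16 ^ m : ℕ) : ℝ≥0∞) = ENNReal.ofReal (16 ^ m) := by
      rw [← ENNReal.ofReal_natCast]; push_cast; rfl
    rw [h6, ← ENNReal.ofReal_mul (by positivity)]
    apply ENNReal.ofReal_le_ofReal
    have h7 : (16 : ℝ) ^ m * (1 / 32) ^ m = (1 / 2) ^ m := by
      rw [← mul_pow]; norm_num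
    calc (16 : ℝ) ^ m * (Q * (1 / 32) ^ m) = Q * (16 ^ m * (1 / 32) ^ m) := by ring
      _ ≤ _ := by rw [h7]
  have hsum : ∑' m, P (E m) ≠ ∞ := by
    refine ((ENNReal.tsum_le_tsum hPE).trans_lt ?_).ne
    have hs : Summable (fun m : ℕ => Q * (1 / 2 : ℝ) ^ m) :=
      (summable_geometric_of_lt_one (by norm_num) (by norm_num)).mul_left Q
    rw [← ENNReal.ofReal_tsum_of_nonneg (fun m => by positivity) hs]
    exact ENNReal.ofReal_lt_top
  filter_upwards [ae_eventually_notMem hsum] with ω hω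
  filter_upwards [hω] with m hm j hj
  by_contra hcon
  apply hm
  rw [hE]
  simp only [Set.mem_iUnion, Finset.mem_range, exists_prop]
  exact ⟨j, hj, not_lt.mp hcon⟩

include hX hind in
/-- **Main regularity statement**: any vague limit of the Gaussian chaos is almost surely nonzero
and bounded by the `1/16`-dimensional Hausdorff measure. -/
theorem gauss_limit (hlaw : ∀ k, P.map (X k) = gaussianReal 0 1) (γ : ℝ)
    (hγ : 4 * γ ^ 2 ≤ 1 / 2) (μlim : Ω → FiniteMeasure S1)
    (hlim : ∀ᵐ ω ∂P, ∀ f : C(S1, ℝ), Tendsto (fun n => ∫ z, f z * DD X γ n ω z ∂arcLength) atTop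
      (𝓝 (∫ z, f z ∂(μlim ω : Measure S1)))) :
    ∀ᵐ ω ∂P, 1 / 16 ≤ dimMeasure (μlim ω : Measure S1) := by
  filter_upwards [hlim, ae_VV_lt P X hX hind hlaw γ hγ,
    ae_not_tendsto_zero P X hX hind hlaw γ hγ] with ω h1 h2 h3
  apply le_dimMeasure
  · -- nonzero
    intro h0
    apply h3
    have h4 := h1 1
    rw [h0] at h4
    simp only [ContinuousMap.one_apply, one_mul, integral_zero_measure] at h4
    have h5 := (ENNReal.continuous_ofReal.tendsto 0).comp h4
    rw [ENNReal.ofReal_zero] at h5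
    refine h5.congr fun n => ?_
    have hint : Integrable (DD X γ n ω) arcLength := by
      have := integrable_mul_DD X 1 γ n ω
      simpa using this
    simp only [Function.comp]
    rw [ofReal_integral_eq_lintegral_ofReal hint (ae_of_all _ fun z => (DD_pos X γ n ω z).le)]
    rfl
  · obtain ⟨m0, hm0⟩ := eventually_atTop.mp h2
    apply le_hausdorff_of_grid _ m0
    intro m hm j hj
    refine le_trans ?_ (hm0 m hm j hj).le
    set x := xg m j
    set r : ℝ := 8 * (1 / 16) ^ m with hr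
    have hr0 : 0 < r := by positivity
    have h4 := h1 (cut x r)
    have h5 : Tendsto (fun n => ENNReal.ofReal (WW X γ x r n ω) ^ 2) atTop
        (𝓝 (ENNReal.ofReal (∫ z, cut x r z ∂(μlim ω : Measure S1)) ^ 2)) := by
      have h6 := (ENNReal.continuous_ofReal.tendsto _).comp h4
      exact ((ENNReal.continuous_pow 2).tendsto _).comp h6
    have h7 : VV X γ m j ω = ENNReal.ofReal (∫ z, cut x r z ∂(μlim ω : Measure S1)) ^ 2 :=
      h5.liminf_eq
    rw [h7]
    gcongr
    have hci : Integrable (fun z => cut x r z) (μlim ω : Measure S1) :=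
      (BoundedContinuousFunction.mkOfCompact (cut x r)).integrable _
    rw [ofReal_integral_eq_lintegral_ofReal hci (ae_of_all _ fun z => cut_nonneg x r z),
      ← lintegral_indicator_one Metric.isClosed_closedBall.measurableSet]
    apply lintegral_mono
    intro z
    by_cases hz : z ∈ Metric.closedBall x r
    · rw [Set.indicator_of_mem hz]
      change (1 : ℝ≥0∞) ≤ ENNReal.ofReal (cut x r z)
      rw [cut_eq_one x r hr0 z hz]
      simp
    · rw [Set.indicator_of_notMem hz]
      exact bot_le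

end Pool.Agent.Helper711.ChaosHolder
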