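import Mathlib

/-!
An explicit centered law of variance one with `E ξ² log⁺|ξ| = ∞`.
-/

open MeasureTheory ProbabilityTheory Filter Topology Set
open scoped ENNReal NNReal

namespace Pool.Agent.Helper711.ChaosLaw

/-- `1 / ((n+1)(n+2))` -/
noncomputable def qq (n : ℕ) : ℝ := 1 / (((n : ℝ) + 1) * ((n : ℝ) + 2))

lemma qq_pos (n : ℕ) : 0 < qq n := by unfold qq; positivity

lemma hasSum_qq : HasSum qq 1 := by
  rw [hasSum_iff_tendsto_nat_of_nonneg (fun n => (qq_pos n).le)]
  have h1 : ∀ n : ℕ, ∑ k ∈ Finset.range n, qq k = 1 - 1 / ((n : ℝ) + 1) := by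
    intro n
    induction n with
    | zero => simp
    | succ n ih =>
      rw [Finset.sum_range_succ, ih]
      unfold qq
      push_cast
      field_simp
      ring
  simp only [h1]
  have h2 := (tendsto_one_div_add_atTop_nhds_zero_nat (𝕜 := ℝ)).const_sub 1
  simpa using h2

/-- weights -/
noncomputable def wt (n : ℕ) : ℝ := qq n / (2 * 4 ^ (n + 1))

lemma wt_pos (n : ℕ) : 0 < wt n := by unfold wt; have := qq_pos n; positivity

/-- the part of the law away from zero -/
noncomputable def nu' : Measure ℝ :=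
  Measure.sum (fun n : ℕ => ENNReal.ofReal (wt n) •
    (Measure.dirac ((2 : ℝ) ^ (n + 1)) + Measure.dirac (-(2 : ℝ) ^ (n + 1))))

lemma lintegral_nu' (f : ℝ → ℝ≥0∞) (hf : Measurable f) :
    ∫⁻ x, f x ∂nu' =
      ∑' n : ℕ, ENNReal.ofReal (wt n) * (f ((2 : ℝ) ^ (n + 1)) + f (-(2 : ℝ) ^ (n + 1))) := by
  unfold nu'
  rw [lintegral_sum_measure]
  congr 1
  funext n
  rw [lintegral_smul_measure, lintegral_add_measure, lintegral_dirac' _ hf, lintegral_dirac' _ hf]
  rfl

lemma nu'_univ_le : nu' Set.univ ≤ 1 := by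
  rw [← lintegral_one, lintegral_nu' (fun _ => 1) measurable_const]
  have h1 : ∀ n : ℕ, ENNReal.ofReal (wt n) * ((1 : ℝ≥0∞) + 1) ≤ ENNReal.ofReal (qq n) := by
    intro n
    rw [show (1 : ℝ≥0∞) + 1 = ENNReal.ofReal 2 by norm_num,
      ← ENNReal.ofReal_mul (wt_pos n).le]
    apply ENNReal.ofReal_le_ofReal
    unfold wt
    have h4 : (1 : ℝ) ≤ 4 ^ (n + 1) := one_le_pow₀ (by norm_num)
    rw [div_mul_eq_mul_div, div_le_iff₀ (by positivity)]
    have := (qq_pos n).le
    nlinarith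
  refine (ENNReal.tsum_le_tsum h1).trans ?_
  rw [← ENNReal.ofReal_tsum_of_nonneg (fun n => (qq_pos n).le) hasSum_qq.summable,
    hasSum_qq.tsum_eq]
  simp

/-- the law -/
noncomputable def nu : Measure ℝ := (1 - nu' Set.univ) • Measure.dirac 0 + nu'

instance : IsProbabilityMeasure nu := by
  constructor
  unfold nu
  rw [Measure.add_apply, Measure.smul_apply, Measure.dirac_apply_of_mem (Set.mem_univ _),
    smul_eq_mul, mul_one]
  exact tsub_add_cancel_of_le nu'_univ_le

lemma lintegral_nu (f : ℝ → ℝ≥0∞) (hf : Measurable f) (h0 : f 0 = 0) :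
    ∫⁻ x, f x ∂nu =
      ∑' n : ℕ, ENNReal.ofReal (wt n) * (f ((2 : ℝ) ^ (n + 1)) + f (-(2 : ℝ) ^ (n + 1))) := by
  unfold nu
  rw [lintegral_add_measure, lintegral_smul_measure, lintegral_dirac' _ hf, h0,
    lintegral_nu' f hf]
  simp

instance : Measure.IsNegInvariant nu := by
  constructor
  ext s hs
  have hs' : MeasurableSet (-s) := hs.neg
  rw [Measure.neg_apply]
  have hd : ∀ x : ℝ, Measure.dirac x (-s) = Measure.dirac (-x) s := by
    intro x
    rw [Measure.dirac_apply' _ hs', Measure.dirac_apply' _ hs]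
    by_cases h : -x ∈ s
    · rw [Set.indicator_of_mem h, Set.indicator_of_mem (by rw [Set.mem_neg]; exact h)]
      rfl
    · rw [Set.indicator_of_notMem h, Set.indicator_of_notMem (by rw [Set.mem_neg]; exact h)]
  unfold nu nu'
  simp only [Measure.add_apply, Measure.smul_apply, Measure.sum_apply _ hs, Measure.sum_apply _ hs',
    hd, neg_zero, neg_neg]
  congr 1
  apply tsum_congr
  intro n
  congr 1
  rw [add_comm]

lemma integral_id_nu : ∫ x, x ∂nu = 0 := by
  have h := integral_neg_eq_self (fun x : ℝ => x) nu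
  rw [integral_neg] at h
  linarith

lemma lintegral_sq_nu : ∫⁻ x, ENNReal.ofReal (x ^ 2) ∂nu = 1 := by
  rw [lintegral_nu _ (by fun_prop) (by simp)]
  have h1 : ∀ n : ℕ, ENNReal.ofReal (wt n) * (ENNReal.ofReal (((2 : ℝ) ^ (n + 1)) ^ 2) +
      ENNReal.ofReal ((-(2 : ℝ) ^ (n + 1)) ^ 2)) = ENNReal.ofReal (qq n) := by
    intro n
    rw [← ENNReal.ofReal_add (by positivity) (by positivity), ← ENNReal.ofReal_mul (wt_pos n).le]
    congr 1
    unfold wt
    rw [neg_sq]
    have : ((2 : ℝ) ^ (n + 1)) ^ 2 = 4 ^ (n + 1) := by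
      rw [← pow_mul, mul_comm, pow_mul]; norm_num
    rw [this]
    field_simp
    ring
  simp only [h1]
  rw [← ENNReal.ofReal_tsum_of_nonneg (fun n => (qq_pos n).le) hasSum_qq.summable,
    hasSum_qq.tsum_eq]
  simp

lemma integral_sq_nu : ∫ x, x ^ 2 ∂nu = 1 := by
  rw [integral_eq_lintegral_of_nonneg_ae (ae_of_all _ fun x => sq_nonneg x) (by fun_prop),
    lintegral_sq_nu]
  simp

lemma not_integrable_log : ¬ Integrable (fun x : ℝ => x ^ 2 * Real.posLog x) nu := by
  intro h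
  have hmeas : Measurable (fun x : ℝ => ENNReal.ofReal (x ^ 2 * Real.posLog x)) := by
    unfold Real.posLog
    fun_prop
  have h1 := h.2
  rw [hasFiniteIntegral_iff_ofReal (ae_of_all _ fun x =>
    mul_nonneg (sq_nonneg x) Real.posLog_nonneg), lintegral_nu _ hmeas (by simp)] at h1
  have h2 : ∀ n : ℕ, ENNReal.ofReal (wt n) * (ENNReal.ofReal (((2 : ℝ) ^ (n + 1)) ^ 2 *
      Real.posLog ((2 : ℝ) ^ (n + 1))) + ENNReal.ofReal ((-(2 : ℝ) ^ (n + 1)) ^ 2 *
      Real.posLog (-(2 : ℝ) ^ (n + 1)))) = ENNReal.ofReal (Real.log 2 * (1 / ((n : ℝ) + 2))) := by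
    intro n
    have hp : Real.posLog ((2 : ℝ) ^ (n + 1)) = ((n : ℝ) + 1) * Real.log 2 := by
      rw [Real.posLog_pow, Real.posLog_eq_log (by norm_num)]
      push_cast; ring
    have hlog : 0 ≤ Real.log 2 := Real.log_nonneg (by norm_num)
    rw [Real.posLog_neg, hp, neg_sq, ← ENNReal.ofReal_add (by positivity) (by positivity),
      ← ENNReal.ofReal_mul (wt_pos n).le]
    congr 1
    unfold wt qq
    have : ((2 : ℝ) ^ (n + 1)) ^ 2 = 4 ^ (n + 1) := by
      rw [← pow_mul, mul_comm, pow_mul]; norm_num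
    rw [this]
    field_simp
    ring
  simp only [h2] at h1
  have h3 := ENNReal.summable_toReal h1.ne
  have h4 : Summable (fun n : ℕ => Real.log 2 * (1 / ((n : ℝ) + 2))) := by
    refine h3.congr fun n => ?_
    rw [ENNReal.toReal_ofReal]
    have hlog : 0 ≤ Real.log 2 := Real.log_nonneg (by norm_num)
    positivity
  have h5 : Summable (fun n : ℕ => 1 / ((n : ℝ) + 2)) := by
    have h6 := h4.mul_left (Real.log 2)⁻¹
    refine h6.congr fun n => ?_
    rw [← mul_assoc, inv_mul_cancel₀ (by positivity), one_mul]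
  have h7 : Summable (fun n : ℕ => 1 / (n : ℝ)) := by
    rw [← summable_nat_add_iff 2]
    refine h5.congr fun n => ?_
    push_cast
    rfl
  exact Real.not_summable_one_div_natCast h7

/-- There is a centered law of variance one with `E ξ² log⁺|ξ| = ∞`. -/
theorem exists_law : ∃ ν : Measure ℝ, IsProbabilityMeasure ν ∧ ∫ x, x ∂ν = 0 ∧
    ∫ x, x ^ 2 ∂ν = 1 ∧ ¬ Integrable (fun x : ℝ => x ^ 2 * Real.posLog x) ν :=
  ⟨nu, inferInstance, integral_id_nu, integral_sq_nu, not_integrable_log⟩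

end Pool.Agent.Helper711.ChaosLaw
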