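import Mathlib
import Pool.Agent.Helper711.ChaosBase

/-!
Degeneracy of the chaos for laws with infinite `E ξ² log⁺|ξ|`.
-/

open MeasureTheory ProbabilityTheory Filter Topology Set
open scoped ENNReal NNReal BoundedContinuousFunction

set_option linter.unusedSectionVars false

namespace Pool.Agent.Helper711.ChaosHeavy
open Pool.Agent.Helper711.ChaosDefs Pool.Agent.Helper711.ChaosBase

variable {K : Type*} [TopologicalSpace K] [CompactSpace K] [MeasurableSpace K] [BorelSpace K]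
  [TopologicalSpace.MetrizableSpace K]
variable {Ω : Type*} {mΩ : MeasurableSpace Ω}
variable (P : Measure Ω) [IsProbabilityMeasure P] (ξ : ℕ → Ω → ℂ)
  (hm : ∀ k, Measurable (ξ k)) (hL : ∀ k, MemLp (ξ k) 2 P) (hmean : ∀ k, ∫ ω, ξ k ω ∂P = 0)
  (φ : ℕ → C(K, ℂ)) (hφ : ∀ k z, ‖φ k z‖ ≤ 1) (γ : ℝ)

/-- the loss in the second moment caused by the truncation -/
noncomputable def ww (k : ℕ) (z : K) : ℝ :=
  vv P ξ φ k z - ∫ ω, (xx φ k (tr k (ξ k ω)) z) ^ 2 ∂P

include hm hL hφ in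
lemma ww_nonneg (k : ℕ) (z : K) : 0 ≤ ww P ξ φ k z := by
  have hymeas : Measurable (fun ω => xx φ k (tr k (ξ k ω)) z) :=
    (measurable_xx φ k).comp (((measurable_tr k).comp (hm k)).prodMk measurable_const)
  have hy2int : Integrable (fun ω => (xx φ k (tr k (ξ k ω)) z) ^ 2) P :=
    Integrable.of_bound (hymeas.pow_const 2).aestronglyMeasurable 1 (ae_of_all _ fun ω => by
      rw [norm_pow, Real.norm_eq_abs]
      exact pow_le_one₀ (abs_nonneg _) (abs_xx_tr_le_one φ hφ k _ z))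
  have hx2int : Integrable (fun ω => (xx φ k (ξ k ω) z) ^ 2) P :=
    (memLp_xx P ξ hm hL φ hφ k z).integrable_sq
  unfold ww vv
  rw [sub_nonneg]
  apply integral_mono hy2int hx2int
  intro ω
  simp only [tr]
  split_ifs with h
  · exact le_rfl
  · have : xx φ k 0 z = 0 := by simp [xx]
    rw [this]
    have := sq_nonneg (xx φ k (ξ k ω) z)
    linarith

include hm hL hmean hφ in
lemma integral_GG_le_exp (k : ℕ) (z : K) :
    ∫ ω, GG P ξ φ γ k (ξ k ω) z ∂P ≤ Real.exp (-(γ ^ 2 / 2 * ww P ξ φ k z)) := by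
  set y : Ω → ℝ := fun ω => xx φ k (tr k (ξ k ω)) z with hy
  have hymeas : Measurable y :=
    (measurable_xx φ k).comp (((measurable_tr k).comp (hm k)).prodMk measurable_const)
  have hyb : ∀ ω, |y ω| ≤ 1 := fun ω => abs_xx_tr_le_one φ hφ k _ z
  have hyint : Integrable y P :=
    Integrable.of_bound hymeas.aestronglyMeasurable 1 (ae_of_all _ fun ω => by
      rw [Real.norm_eq_abs]; exact hyb ω)
  have hy2int : Integrable (fun ω => y ω ^ 2) P :=
    Integrable.of_bound (hymeas.pow_const 2).aestronglyMeasurable 1 (ae_of_all _ fun ω => by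
      rw [norm_pow, Real.norm_eq_abs]; exact pow_le_one₀ (abs_nonneg _) (hyb ω))
  have hy3int : Integrable (fun ω => |y ω| ^ 3) P :=
    Integrable.of_bound (hymeas.abs.pow_const 3).aestronglyMeasurable 1 (ae_of_all _ fun ω => by
      rw [norm_pow, Real.norm_eq_abs, abs_abs]; exact pow_le_one₀ (abs_nonneg _) (hyb ω))
  have hxint : Integrable (fun ω => xx φ k (ξ k ω) z) P :=
    (memLp_xx P ξ hm hL φ hφ k z).integrable (by norm_num)
  have hx2int : Integrable (fun ω => (xx φ k (ξ k ω) z) ^ 2) P :=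
    (memLp_xx P ξ hm hL φ hφ k z).integrable_sq
  have hξint : Integrable (ξ k) P := (hL k).integrable (by norm_num)
  -- mean zero
  have hx0 : ∫ ω, xx φ k (ξ k ω) z ∂P = 0 := by
    unfold xx
    rw [integral_div]
    have h1 : ∫ ω, (ξ k ω * φ k z).re ∂P = (∫ ω, ξ k ω * φ k z ∂P).re := by
      have := integral_re (hξint.mul_const (φ k z))
      simpa using this
    rw [h1, integral_mul_const, hmean k]
    simp
  have hlow : ∀ ω, |xx φ k (ξ k ω) z - y ω| ≤ low k ‖ξ k ω‖ := by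
    intro ω
    simp only [hy, tr, low]
    split_ifs with h
    · simp
    · have : xx φ k 0 z = 0 := by simp [xx]
      rw [this, sub_zero]
      exact abs_xx_le φ hφ k _ z
  have hmeany : γ * ∫ ω, y ω ∂P ≤ |γ| * ∫ ω, low k ‖ξ k ω‖ ∂P := by
    have h1 : |∫ ω, y ω ∂P| ≤ ∫ ω, low k ‖ξ k ω‖ ∂P := by
      have h2 : ∫ ω, y ω ∂P = - ∫ ω, (xx φ k (ξ k ω) z - y ω) ∂P := by
        rw [integral_sub hxint hyint, hx0]; ring
      rw [h2, abs_neg]
      refine (abs_integral_le_integral_abs).trans ?_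
      exact integral_mono (hxint.sub hyint).abs (integrable_low P ξ hm hL k k) hlow
    calc γ * ∫ ω, y ω ∂P ≤ |γ * ∫ ω, y ω ∂P| := le_abs_self _
      _ = |γ| * |∫ ω, y ω ∂P| := abs_mul _ _
      _ ≤ _ := by gcongr
  have hcub : ∫ ω, |y ω| ^ 3 ∂P ≤ ∫ ω, high k ‖ξ k ω‖ ∂P := by
    apply integral_mono hy3int (integrable_high P ξ hm k k)
    intro ω
    simp only [hy, tr, high]
    split_ifs with h
    · exact pow_le_pow_left₀ (abs_nonneg _) (abs_xx_le φ hφ k _ z) 3
    · simp [xx]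
  have hexp : ∫ ω, Real.exp (γ * y ω) ∂P ≤ Real.exp (γ ^ 2 / 2 * ∫ ω, y ω ^ 2 ∂P + dl P ξ γ k) := by
    have h1 : ∫ ω, Real.exp (γ * y ω) ∂P ≤
        ∫ ω, (1 + γ * y ω + γ ^ 2 / 2 * y ω ^ 2 + |γ| ^ 3 * Real.exp |γ| * |y ω| ^ 3) ∂P := by
      apply integral_mono
      · refine Integrable.of_bound (by fun_prop) (Real.exp |γ|) (ae_of_all _ fun ω => ?_)
        rw [Real.norm_eq_abs, Real.abs_exp]
        apply Real.exp_le_exp.mpr
        calc γ * y ω ≤ |γ * y ω| := le_abs_self _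
          _ = |γ| * |y ω| := abs_mul _ _
          _ ≤ |γ| * 1 := by gcongr; exact hyb ω
          _ = |γ| := mul_one _
      · exact ((((integrable_const 1).add (hyint.const_mul γ)).add
          (hy2int.const_mul (γ ^ 2 / 2))).add (hy3int.const_mul _))
      · intro ω
        exact exp_le_cubic γ (y ω) (hyb ω)
    have h2 : ∫ ω, (1 + γ * y ω + γ ^ 2 / 2 * y ω ^ 2 + |γ| ^ 3 * Real.exp |γ| * |y ω| ^ 3) ∂P
        = 1 + γ * ∫ ω, y ω ∂P + γ ^ 2 / 2 * ∫ ω, y ω ^ 2 ∂P
          + |γ| ^ 3 * Real.exp |γ| * ∫ ω, |y ω| ^ 3 ∂P := by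
      rw [integral_add (f := fun ω => 1 + γ * y ω + γ ^ 2 / 2 * y ω ^ 2)
          (g := fun ω => |γ| ^ 3 * Real.exp |γ| * |y ω| ^ 3)
          (((integrable_const 1).add (hyint.const_mul γ)).add
          (hy2int.const_mul (γ ^ 2 / 2))) (hy3int.const_mul _),
        integral_add (f := fun ω => 1 + γ * y ω) (g := fun ω => γ ^ 2 / 2 * y ω ^ 2)
          ((integrable_const 1).add (hyint.const_mul γ)) (hy2int.const_mul (γ ^ 2 / 2)),
        integral_add (f := fun _ => 1) (g := fun ω => γ * y ω)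
          (integrable_const 1) (hyint.const_mul γ)]
      simp [integral_const_mul]
    have h3 : 1 + γ * ∫ ω, y ω ∂P + γ ^ 2 / 2 * ∫ ω, y ω ^ 2 ∂P
          + |γ| ^ 3 * Real.exp |γ| * ∫ ω, |y ω| ^ 3 ∂P
          ≤ (γ ^ 2 / 2 * ∫ ω, y ω ^ 2 ∂P + dl P ξ γ k) + 1 := by
      have e2 : |γ| ^ 3 * Real.exp |γ| * ∫ ω, |y ω| ^ 3 ∂P ≤
        |γ| ^ 3 * Real.exp |γ| * ∫ ω, high k ‖ξ k ω‖ ∂P := by gcongr
      unfold dl
      linarith
    exact (h1.trans (h2.le.trans h3)).trans (Real.add_one_le_exp _)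
  have hG : ∀ ω, GG P ξ φ γ k (ξ k ω) z =
      Real.exp (-(γ ^ 2 / 2 * vv P ξ φ k z + dl P ξ γ k)) * Real.exp (γ * y ω) := by
    intro ω
    unfold GG
    rw [← Real.exp_add]
    congr 1
    simp only [hy]; ring
  simp only [hG]
  rw [integral_const_mul]
  calc Real.exp (-(γ ^ 2 / 2 * vv P ξ φ k z + dl P ξ γ k)) * ∫ ω, Real.exp (γ * y ω) ∂P
      ≤ Real.exp (-(γ ^ 2 / 2 * vv P ξ φ k z + dl P ξ γ k)) *
        Real.exp (γ ^ 2 / 2 * ∫ ω, y ω ^ 2 ∂P + dl P ξ γ k) := by gcongr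
    _ = Real.exp (-(γ ^ 2 / 2 * ww P ξ φ k z)) := by
        rw [← Real.exp_add]
        congr 1
        unfold ww
        simp only [hy]
        ring


include hm hL hmean hφ in
lemma integral_NN_le (hind : iIndepFun ξ P) (n : ℕ) (z : K) :
    ∫ ω, NN P ξ φ γ n ω z ∂P ≤
      Real.exp (-(γ ^ 2 / 2 * ∑ k ∈ Finset.range n, ww P ξ φ k z)) := by
  have h0 : ∀ k, Measurable (fun c : ℂ => GG P ξ φ γ k c z) := fun k =>
    measurable_GG_comp P ξ hm hL φ hφ γ k (fun c : ℂ => c) measurable_id (fun _ => z)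
      measurable_const
  have h1 : ∫ ω, NN P ξ φ γ n ω z ∂P = ∏ k : Fin n, ∫ ω, GG P ξ φ γ k (ξ k ω) z ∂P := by
    have hind' : iIndepFun (fun (k : Fin n) => ξ (k : ℕ)) P :=
      hind.precomp (g := fun k : Fin n => (k : ℕ)) Fin.val_injective
    have h2 := iIndepFun.integral_fun_prod_comp (X := fun (k : Fin n) => ξ (k : ℕ))
      (f := fun (k : Fin n) c => GG P ξ φ γ k c z) hind' (fun k => (hm k).aemeasurable)
      (fun k => (h0 k).aestronglyMeasurable)
    rw [← h2]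
    congr 1
    funext ω
    rw [NN_eq_QQ]
    rfl
  rw [h1]
  calc ∏ k : Fin n, ∫ ω, GG P ξ φ γ k (ξ k ω) z ∂P
      ≤ ∏ k : Fin n, Real.exp (-(γ ^ 2 / 2 * ww P ξ φ k z)) := by
        apply Finset.prod_le_prod
        · intro k _
          exact integral_nonneg fun ω => (GG_pos P ξ φ γ k _ z).le
        · intro k _
          exact integral_GG_le_exp P ξ hm hL hmean φ hφ γ k z
    _ = Real.exp (-(γ ^ 2 / 2 * ∑ k ∈ Finset.range n, ww P ξ φ k z)) := by
        rw [← Real.exp_sum, Finset.sum_neg_distrib, ← Finset.mul_sum, Finset.sum_range]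

variable (lam : Measure K) [IsFiniteMeasure lam]

include hm hL hmean hφ in
lemma tendsto_integral_SS_one (hind : iIndepFun ξ P) (hγ : γ ≠ 0)
    (hdiv : ∀ᵐ z ∂lam, Tendsto (fun n => ∑ k ∈ Finset.range n, ww P ξ φ k z) atTop atTop) :
    Tendsto (fun n => ∫ ω, SS P ξ φ γ lam 1 n ω ∂P) atTop (𝓝 0) := by
  have h1 : ∀ n, ∫ ω, SS P ξ φ γ lam 1 n ω ∂P = ∫ z, (∫ ω, NN P ξ φ γ n ω z ∂P) ∂lam := by
    intro n
    unfold SS
    rw [integral_integral_swap (f := fun ω z => (1 : C(K, ℝ)) z * NN P ξ φ γ n ω z)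
      (integrable_prod P ξ hm hL φ hφ γ lam 1 n P)]
    simp
  simp only [h1]
  have h2 : ∀ n z, 0 ≤ ∫ ω, NN P ξ φ γ n ω z ∂P := fun n z =>
    integral_nonneg fun ω => (NN_pos P ξ φ γ n ω z).le
  have h3 : ∀ n z, ∫ ω, NN P ξ φ γ n ω z ∂P ≤ 1 := by
    intro n z
    refine (integral_NN_le P ξ hm hL hmean φ hφ γ hind n z).trans ?_
    rw [Real.exp_le_one_iff]
    have : 0 ≤ ∑ k ∈ Finset.range n, ww P ξ φ k z :=
      Finset.sum_nonneg fun k _ => ww_nonneg P ξ hm hL φ hφ k z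
    have : 0 ≤ γ ^ 2 / 2 * ∑ k ∈ Finset.range n, ww P ξ φ k z := by positivity
    linarith
  have h4 : Tendsto (fun n => ∫ z, (∫ ω, NN P ξ φ γ n ω z ∂P) ∂lam) atTop
      (𝓝 (∫ _z : K, (0 : ℝ) ∂lam)) := by
    apply tendsto_integral_of_dominated_convergence (fun _ => 1)
    · intro n
      have := (integrable_prod P ξ hm hL φ hφ γ lam 1 n P).integral_prod_right
      refine this.aestronglyMeasurable.congr (ae_of_all _ fun z => ?_)
      simp
    · exact integrable_const _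
    · intro n
      refine ae_of_all _ fun z => ?_
      rw [Real.norm_eq_abs, abs_of_nonneg (h2 n z)]
      exact h3 n z
    · filter_upwards [hdiv] with z hz
      refine squeeze_zero (fun n => h2 n z)
        (fun n => integral_NN_le P ξ hm hL hmean φ hφ γ hind n z) ?_
      apply Real.tendsto_exp_neg_atTop_nhds_zero.comp
      apply hz.const_mul_atTop
      positivity
  simpa using h4

include hm hL hmean hφ in
lemma ae_SS_one_tendsto_zero (hind : iIndepFun ξ P) (hγ : γ ≠ 0)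
    (hdiv : ∀ᵐ z ∂lam, Tendsto (fun n => ∑ k ∈ Finset.range n, ww P ξ φ k z) atTop atTop) :
    ∀ᵐ ω ∂P, Tendsto (fun n => SS P ξ φ γ lam 1 n ω) atTop (𝓝 0) := by
  have hconv := ae_tendsto_SS P ξ hm hL hmean φ hφ γ lam hind 1
  have hnn : ∀ n ω, 0 ≤ SS P ξ φ γ lam 1 n ω := fun n ω =>
    integral_nonneg fun z => mul_nonneg (by simp) (NN_pos P ξ φ γ n ω z).le
  have hmeas : ∀ n, Measurable (SS P ξ φ γ lam 1 n) := fun n =>
    (stronglyMeasurable_SS P ξ hm hL φ hφ γ lam 1 n mΩ (fun k _ => hm k)).measurable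
  have hF : ∫⁻ ω, liminf (fun n => ENNReal.ofReal (SS P ξ φ γ lam 1 n ω)) atTop ∂P = 0 := by
    refine le_antisymm ?_ bot_le
    refine (lintegral_liminf_le (fun n => (hmeas n).ennreal_ofReal)).trans ?_
    have h1 : ∀ n, ∫⁻ ω, ENNReal.ofReal (SS P ξ φ γ lam 1 n ω) ∂P =
        ENNReal.ofReal (∫ ω, SS P ξ φ γ lam 1 n ω ∂P) := fun n =>
      (ofReal_integral_eq_lintegral_ofReal (integrable_SS P ξ hm hL φ hφ γ lam 1 n)
        (ae_of_all _ (hnn n))).symm
    simp only [h1]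
    have h2 := (ENNReal.continuous_ofReal.tendsto 0).comp
      (tendsto_integral_SS_one P ξ hm hL hmean φ hφ γ lam hind hγ hdiv)
    rw [ENNReal.ofReal_zero] at h2
    exact (h2.liminf_eq).le
  rw [lintegral_eq_zero_iff (Measurable.liminf (fun n => (hmeas n).ennreal_ofReal))] at hF
  filter_upwards [hconv, hF] with ω h1 h2
  obtain ⟨c, hc⟩ := h1
  have h3 := ((ENNReal.continuous_ofReal.tendsto c).comp hc).liminf_eq
  simp only [Function.comp_def] at h3
  rw [h3] at h2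
  have h4 : c ≤ 0 := by simpa using h2
  have h5 : 0 ≤ c := ge_of_tendsto' hc (fun n => hnn n ω)
  have : c = 0 := le_antisymm h4 h5
  rwa [this] at hc

include hm hL hmean hφ in
/-- If the truncation losses diverge almost everywhere, the chaos vanishes almost surely. -/
theorem ae_dens_zero (hind : iIndepFun ξ P) (hid : ∀ k, IdentDistrib (ξ k) (ξ 0) P P)
    (hγ : γ ≠ 0)
    (hdiv : ∀ᵐ z ∂lam, Tendsto (fun n => ∑ k ∈ Finset.range n, ww P ξ φ k z) atTop atTop) :
    ∀ᵐ ω ∂P, ∀ f : C(K, ℝ),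
      Tendsto (fun n => ∫ z, f z * dens P ξ φ γ n ω z ∂lam) atTop (𝓝 0) := by
  filter_upwards [ae_eventually_small P ξ hm hL hid,
    ae_SS_one_tendsto_zero P ξ hm hL hmean φ hφ γ lam hind hγ hdiv] with ω h1 h2
  intro f
  obtain ⟨n0, hn0⟩ := eventually_atTop.mp h1
  let D : C(K, ℝ) := ⟨fun z => Real.exp (γ * ∑ k ∈ Finset.range n0,
    (xx φ k (ξ k ω) z - xx φ k (tr k (ξ k ω)) z)), by
      have h : Continuous (fun z => ∑ k ∈ Finset.range n0,
          (xx φ k (ξ k ω) z - xx φ k (tr k (ξ k ω)) z)) :=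
        continuous_finsetSum _ fun k _ => (continuous_xx φ k _).sub (continuous_xx φ k _)
      exact Real.continuous_exp.comp (continuous_const.mul h)⟩
  have hsum := (summable_dl P ξ hm hL γ hid).hasSum.tendsto_sum_nat
  have h3 : Tendsto (fun n => Real.exp (∑ k ∈ Finset.range n, dl P ξ γ k) *
      (‖f * D‖ * SS P ξ φ γ lam 1 n ω)) atTop (𝓝 (Real.exp (∑' k, dl P ξ γ k) * (‖f * D‖ * 0))) :=
    ((Real.continuous_exp.tendsto _).comp hsum).mul (h2.const_mul _)
  simp only [mul_zero] at h3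
  apply squeeze_zero_norm' _ h3
  filter_upwards [eventually_ge_atTop n0] with n hn
  have h4 : ∀ z, f z * dens P ξ φ γ n ω z = Real.exp (∑ k ∈ Finset.range n, dl P ξ γ k) *
      ((f * D) z * NN P ξ φ γ n ω z) := by
    intro z
    rw [dens_eq_NN P ξ hm hL hmean φ hφ γ hind ω n0 hn0 n hn z]
    simp only [ContinuousMap.mul_apply, D, ContinuousMap.coe_mk]
    ring
  simp only [h4]
  rw [integral_const_mul, norm_mul, Real.norm_eq_abs, Real.abs_exp]
  apply mul_le_mul_of_nonneg_left _ (Real.exp_pos _).le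
  rw [Real.norm_eq_abs]
  refine (abs_integral_le_integral_abs).trans ?_
  unfold SS
  rw [← integral_const_mul]
  apply integral_mono
  · exact (integrable_f_NN P ξ hm hL φ hφ γ lam (f * D) n ω).abs
  · exact (integrable_f_NN P ξ hm hL φ hφ γ lam 1 n ω).const_mul _
  · intro z
    simp only [ContinuousMap.one_apply, one_mul]
    rw [abs_mul, abs_of_pos (NN_pos P ξ φ γ n ω z)]
    exact mul_le_mul_of_nonneg_right ((f * D).norm_coe_le_norm z) (NN_pos P ξ φ γ n ω z).le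

end Pool.Agent.Helper711.ChaosHeavy
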