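import Mathlib
import Pool.Agent.Helper711.ChaosHeavy

/-!
Real coefficients with infinite `E ξ² log⁺|ξ|`: the truncation losses diverge.
-/

open MeasureTheory ProbabilityTheory Filter Topology Set
open scoped ENNReal NNReal BoundedContinuousFunction

set_option linter.unusedSectionVars false

namespace Pool.Agent.Helper711.ChaosReal
open Pool.Agent.Helper711.ChaosDefs Pool.Agent.Helper711.ChaosBase Pool.Agent.Helper711.ChaosHeavy

/-- truncated tail second moments -/
noncomputable def aa (ν : Measure ℝ) (k : ℕ) : ℝ :=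
  (∫ x, (if x ^ 2 ≤ (k : ℝ) + 1 then 0 else x ^ 2) ∂ν) / ((k : ℝ) + 1)

lemma measurable_tail (k : ℕ) :
    Measurable (fun x : ℝ => (if x ^ 2 ≤ (k : ℝ) + 1 then 0 else x ^ 2)) :=
  Measurable.ite (measurableSet_le (by fun_prop) measurable_const) measurable_const (by fun_prop)

lemma tail_nonneg (k : ℕ) (x : ℝ) : 0 ≤ (if x ^ 2 ≤ (k : ℝ) + 1 then 0 else x ^ 2) := by
  split_ifs
  · exact le_rfl
  · positivity

lemma integrable_tail (ν : Measure ℝ) (hν : Integrable (fun x : ℝ => x ^ 2) ν) (k : ℕ) :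
    Integrable (fun x : ℝ => (if x ^ 2 ≤ (k : ℝ) + 1 then 0 else x ^ 2)) ν := by
  refine hν.mono (measurable_tail k).aestronglyMeasurable (ae_of_all _ fun x => ?_)
  rw [Real.norm_eq_abs, Real.norm_eq_abs, abs_of_nonneg (tail_nonneg k x),
    abs_of_nonneg (sq_nonneg x)]
  split_ifs
  · positivity
  · exact le_rfl

lemma aa_nonneg (ν : Measure ℝ) (k : ℕ) : 0 ≤ aa ν k := by
  unfold aa
  apply div_nonneg (integral_nonneg fun x => tail_nonneg k x) (by positivity)

lemma aa_antitone (ν : Measure ℝ) (hν : Integrable (fun x : ℝ => x ^ 2) ν) (k : ℕ) :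
    aa ν (k + 1) ≤ aa ν k := by
  unfold aa
  apply div_le_div₀ (integral_nonneg fun x => tail_nonneg k x) _ (by positivity)
  · push_cast; linarith
  · apply integral_mono (integrable_tail ν hν (k + 1)) (integrable_tail ν hν k)
    intro x
    simp only
    push_cast
    split_ifs with h1 h2 h3
    · exact le_rfl
    · positivity
    · exfalso; linarith
    · exact le_rfl

/-- the harmonic sum over the integers below `x²` dominates `log⁺ |x|` -/
lemma harmonic_lower (x : ℝ) (hx : 1 < |x|) :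
    Real.posLog x ≤ ∑ k ∈ Finset.range (⌈x ^ 2⌉₊ - 1), 1 / ((k : ℝ) + 1) := by
  have hx2 : 1 < x ^ 2 := by
    rw [← sq_abs]; nlinarith
  have hc : 1 ≤ ⌈x ^ 2⌉₊ := Nat.one_le_ceil_iff.mpr (by linarith)
  have h1 := log_add_one_le_harmonic (⌈x ^ 2⌉₊ - 1)
  rw [Nat.sub_add_cancel hc] at h1
  have h2 : (harmonic (⌈x ^ 2⌉₊ - 1) : ℝ) = ∑ k ∈ Finset.range (⌈x ^ 2⌉₊ - 1), 1 / ((k : ℝ) + 1) := by
    rw [harmonic]
    push_cast
    apply Finset.sum_congr rfl
    intro k _
    rw [one_div]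
  rw [← h2]
  refine le_trans ?_ h1
  rw [Real.posLog_eq_log hx.le, ← Real.log_abs]
  apply Real.log_le_log (by linarith)
  refine le_trans ?_ (Nat.le_ceil (x ^ 2))
  rw [← sq_abs]; nlinarith

lemma not_summable_aa (ν : Measure ℝ) (hν : Integrable (fun x : ℝ => x ^ 2) ν)
    (hlog : ¬ Integrable (fun x : ℝ => x ^ 2 * Real.posLog x) ν) : ¬ Summable (aa ν) := by
  intro hs
  apply hlog
  have hmeas : Measurable (fun x : ℝ => x ^ 2 * Real.posLog x) := by
    unfold Real.posLog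
    fun_prop
  refine ⟨hmeas.aestronglyMeasurable, ?_⟩
  rw [hasFiniteIntegral_iff_ofReal (ae_of_all _ fun x =>
    mul_nonneg (sq_nonneg x) Real.posLog_nonneg)]
  have hpt : ∀ x : ℝ, ENNReal.ofReal (x ^ 2 * Real.posLog x) ≤
      ∑' k : ℕ, ENNReal.ofReal ((if x ^ 2 ≤ (k : ℝ) + 1 then 0 else x ^ 2) / ((k : ℝ) + 1)) := by
    intro x
    rcases le_or_gt |x| 1 with hx | hx
    · rw [(Real.posLog_eq_zero_iff x).mpr hx]
      simp
    · refine le_trans ?_ (ENNReal.sum_le_tsum (Finset.range (⌈x ^ 2⌉₊ - 1)))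
      rw [← ENNReal.ofReal_sum_of_nonneg (fun k _ => div_nonneg (tail_nonneg k x) (by positivity))]
      apply ENNReal.ofReal_le_ofReal
      calc x ^ 2 * Real.posLog x
          ≤ x ^ 2 * ∑ k ∈ Finset.range (⌈x ^ 2⌉₊ - 1), 1 / ((k : ℝ) + 1) := by
            gcongr; exact harmonic_lower x hx
        _ = ∑ k ∈ Finset.range (⌈x ^ 2⌉₊ - 1),
            (if x ^ 2 ≤ (k : ℝ) + 1 then 0 else x ^ 2) / ((k : ℝ) + 1) := by
            rw [Finset.mul_sum]
            apply Finset.sum_congr rfl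
            intro k hk
            rw [Finset.mem_range] at hk
            have h3 : k + 1 < ⌈x ^ 2⌉₊ := by omega
            rw [Nat.lt_ceil] at h3
            push_cast at h3
            rw [if_neg (by linarith)]
            ring
  refine (lintegral_mono hpt).trans_lt ?_
  rw [lintegral_tsum (fun k => ((measurable_tail k).div_const _).ennreal_ofReal.aemeasurable)]
  have h4 : ∀ k : ℕ, ∫⁻ x, ENNReal.ofReal
      ((if x ^ 2 ≤ (k : ℝ) + 1 then 0 else x ^ 2) / ((k : ℝ) + 1)) ∂ν = ENNReal.ofReal (aa ν k) := by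
    intro k
    rw [← ofReal_integral_eq_lintegral_ofReal ((integrable_tail ν hν k).div_const _)
      (ae_of_all _ fun x => div_nonneg (tail_nonneg k x) (by positivity)), integral_div]
    rfl
  simp only [h4]
  rw [← ENNReal.ofReal_tsum_of_nonneg (aa_nonneg ν) hs]
  exact ENNReal.ofReal_lt_top

/-- Two consecutive powers of a point of the circle cannot both be close to the imaginary axis. -/
lemma re_sq_add_re_sq (u z : ℂ) (hu : ‖u‖ = 1) (hz : ‖z‖ = 1) :
    1 - |z.re| ≤ u.re ^ 2 + (u * z).re ^ 2 := by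
  have h1 : u.re ^ 2 + u.im ^ 2 = 1 := by
    have := Complex.sq_norm u
    rw [hu, Complex.normSq_apply] at this
    nlinarith
  have h2 : z.re ^ 2 + z.im ^ 2 = 1 := by
    have := Complex.sq_norm z
    rw [hz, Complex.normSq_apply] at this
    nlinarith
  rw [Complex.mul_re]
  set p := u.re
  set q := u.im
  set r := z.re
  set s := z.im
  rcases le_total 0 r with hr | hr
  · rw [abs_of_nonneg hr]
    have h3 : (1 + r) * (p ^ 2 + (p * r - q * s) ^ 2 - (1 - r)) = r * ((1 + r) * p - q * s) ^ 2 := by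
      have e1 : q ^ 2 = 1 - p ^ 2 := by linarith
      have e2 : s ^ 2 = 1 - r ^ 2 := by linarith
      ring_nf
      rw [e1, e2]
      ring_nf
    have h4 : 0 ≤ r * ((1 + r) * p - q * s) ^ 2 := by positivity
    rw [← h3] at h4
    have h5 : 0 < 1 + r := by linarith
    have := nonneg_of_mul_nonneg_right h4 h5
    linarith
  · rw [abs_of_nonpos hr]
    have h3 : (1 - r) * (p ^ 2 + (p * r - q * s) ^ 2 - (1 + r)) = (-r) * ((1 - r) * p + q * s) ^ 2 := by
      have e1 : q ^ 2 = 1 - p ^ 2 := by linarith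
      have e2 : s ^ 2 = 1 - r ^ 2 := by linarith
      ring_nf
      rw [e1, e2]
      ring_nf
    have h4 : 0 ≤ (-r) * ((1 - r) * p + q * s) ^ 2 := by
      apply mul_nonneg (by linarith) (sq_nonneg _)
    rw [← h3] at h4
    have h5 : 0 < 1 - r := by linarith
    have := nonneg_of_mul_nonneg_right h4 h5
    linarith

lemma tendsto_sum_aa (ν : Measure ℝ) (hν : Integrable (fun x : ℝ => x ^ 2) ν)
    (hlog : ¬ Integrable (fun x : ℝ => x ^ 2 * Real.posLog x) ν) (z : S1) (hz : |(z : ℂ).re| ≠ 1) :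
    Tendsto (fun n => ∑ k ∈ Finset.range n, ((z : ℂ) ^ (k + 1)).re ^ 2 * aa ν k) atTop atTop := by
  have hzn : ‖(z : ℂ)‖ = 1 := by simp
  have hlt : |(z : ℂ).re| < 1 :=
    lt_of_le_of_ne ((Complex.abs_re_le_norm _).trans hzn.le) hz
  rw [← not_summable_iff_tendsto_nat_atTop_of_nonneg
    (fun k => mul_nonneg (sq_nonneg _) (aa_nonneg ν k))]
  intro hs
  apply not_summable_aa ν hν hlog
  rw [← summable_nat_add_iff 1]
  have hs1 : Summable (fun k => ((z : ℂ) ^ (k + 1)).re ^ 2 * aa ν k +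
      ((z : ℂ) ^ (k + 1 + 1)).re ^ 2 * aa ν (k + 1)) :=
    hs.add ((summable_nat_add_iff 1).mpr hs)
  have hs2 : Summable (fun k => (1 - |(z : ℂ).re|) * aa ν (k + 1)) := by
    refine Summable.of_nonneg_of_le (fun k => mul_nonneg (by linarith) (aa_nonneg ν _)) ?_ hs1
    intro k
    have h1 := re_sq_add_re_sq ((z : ℂ) ^ (k + 1)) z (by rw [norm_pow, hzn, one_pow]) hzn
    rw [← pow_succ] at h1
    have h2 := aa_antitone ν hν k
    have h3 := aa_nonneg ν (k + 1)
    calc (1 - |(z : ℂ).re|) * aa ν (k + 1)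
        ≤ (((z : ℂ) ^ (k + 1)).re ^ 2 + ((z : ℂ) ^ (k + 1 + 1)).re ^ 2) * aa ν (k + 1) := by gcongr
      _ = ((z : ℂ) ^ (k + 1)).re ^ 2 * aa ν (k + 1) +
          ((z : ℂ) ^ (k + 1 + 1)).re ^ 2 * aa ν (k + 1) := by ring
      _ ≤ _ := by gcongr
  have h4 := hs2.mul_left (1 - |(z : ℂ).re|)⁻¹
  refine h4.congr fun k => ?_
  rw [← mul_assoc, inv_mul_cancel₀ (by linarith), one_mul]

lemma ae_re_ne : ∀ᵐ z : S1 ∂arcLength, |(z : ℂ).re| ≠ 1 := by
  have hms : MeasurableSet {z : S1 | |(z : ℂ).re| ≠ 1} := by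
    have : Measurable (fun z : S1 => |(z : ℂ).re|) := by fun_prop
    exact this (measurableSet_singleton (1 : ℝ)).compl
  unfold arcLength
  rw [ae_map_iff continuous_expPoint.aemeasurable hms]
  apply ae_restrict_of_ae
  have hcount : (Set.range (fun n : ℤ => (n : ℝ) * Real.pi)).Countable := Set.countable_range _
  have h0 := hcount.measure_zero (volume : Measure ℝ)
  filter_upwards [compl_mem_ae_iff.mpr h0] with θ hθ hcos
  apply hθ
  simp only [Set.mem_range]
  rw [← Real.sin_eq_zero_iff]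
  have h1 : (expPoint θ : ℂ).re = Real.cos θ := by
    simp [expPoint, Complex.exp_ofReal_mul_I_re]
  rw [h1] at hcos
  have h2 := Real.sin_sq_add_cos_sq θ
  have h3 : Real.cos θ ^ 2 = 1 := by rw [← sq_abs, hcos]; norm_num
  have h4 : Real.sin θ ^ 2 = 0 := by linarith
  exact pow_eq_zero_iff (two_ne_zero) |>.mp h4

section law

variable {Ω : Type*} {mΩ : MeasurableSpace Ω} (P : Measure Ω) [IsProbabilityMeasure P]
  (X : ℕ → Ω → ℝ) (ν : Measure ℝ)

lemma ww_eq (hX : ∀ k, Measurable (X k)) (hlaw : ∀ k, P.map (X k) = ν)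
    (hν : Integrable (fun x : ℝ => x ^ 2) ν) (k : ℕ) (z : S1) :
    ww P (fun k ω => (X k ω : ℂ)) pw k z = ((z : ℂ) ^ (k + 1)).re ^ 2 * aa ν k := by
  have hxx : ∀ x : ℝ, xx pw k (x : ℂ) z = x * ((z : ℂ) ^ (k + 1)).re / √((k : ℝ) + 1) := by
    intro x
    simp only [xx, pw, ContinuousMap.coe_mk]
    rw [Complex.re_ofReal_mul]
  have hsq : √((k : ℝ) + 1) ^ 2 = (k : ℝ) + 1 := Real.sq_sqrt (by positivity)
  have hL : Integrable (fun ω => X k ω ^ 2) P := by
    rw [← hlaw k] at hν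
    exact hν.comp_measurable (hX k)
  have htrm : Measurable (fun ω => xx pw k (tr k (X k ω : ℂ)) z) :=
    (measurable_xx pw k).comp (((measurable_tr k).comp
      (Complex.measurable_ofReal.comp (hX k))).prodMk measurable_const)
  have h2 : Integrable (fun ω => xx pw k (tr k (X k ω : ℂ)) z ^ 2) P :=
    Integrable.of_bound (htrm.pow_const 2).aestronglyMeasurable 1 (ae_of_all _ fun ω => by
      rw [norm_pow, Real.norm_eq_abs]
      exact pow_le_one₀ (abs_nonneg _) (abs_xx_tr_le_one pw norm_pw_le k _ z))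
  have h1 : Integrable (fun ω => xx pw k (X k ω : ℂ) z ^ 2) P := by
    simp only [hxx]
    have : (fun ω => (X k ω * ((z : ℂ) ^ (k + 1)).re / √((k : ℝ) + 1)) ^ 2) =
        fun ω => X k ω ^ 2 * (((z : ℂ) ^ (k + 1)).re ^ 2 / √((k : ℝ) + 1) ^ 2) := by
      funext ω; ring
    rw [this]
    exact hL.mul_const _
  unfold ww vv
  rw [← integral_sub h1 h2]
  have h3 : ∀ ω, xx pw k (X k ω : ℂ) z ^ 2 - xx pw k (tr k (X k ω : ℂ)) z ^ 2 =
      (((z : ℂ) ^ (k + 1)).re ^ 2 / ((k : ℝ) + 1)) *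
        (if X k ω ^ 2 ≤ (k : ℝ) + 1 then 0 else X k ω ^ 2) := by
    intro ω
    simp only [tr]
    rw [Complex.norm_real, Real.norm_eq_abs, sq_abs]
    split_ifs with h
    · simp
    · have h0 : xx pw k 0 z = 0 := by simp [xx]
      rw [h0, hxx, div_pow, hsq]
      ring
  simp only [h3]
  rw [integral_const_mul]
  unfold aa
  have h4 : ∫ ω, (if X k ω ^ 2 ≤ (k : ℝ) + 1 then 0 else X k ω ^ 2) ∂P =
      ∫ x, (if x ^ 2 ≤ (k : ℝ) + 1 then 0 else x ^ 2) ∂ν := by
    rw [← hlaw k, integral_map (hX k).aemeasurable (measurable_tail k).aestronglyMeasurable]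
  rw [h4]
  ring

/-- **Degenerate limits.**  If the real i.i.d. centered coefficients of variance one satisfy
`E ξ² log⁺|ξ| = ∞`, then for every `γ ≠ 0` the chaos measures converge vaguely to the zero
measure almost surely. -/
theorem heavy_zero [IsProbabilityMeasure ν] (hX : ∀ k, Measurable (X k)) (hind : iIndepFun X P)
    (hlaw : ∀ k, P.map (X k) = ν) (hmean : ∫ x, x ∂ν = 0) (hvar : ∫ x, x ^ 2 ∂ν = 1)
    (hlog : ¬ Integrable (fun x : ℝ => x ^ 2 * Real.posLog x) ν) (γ : ℝ) (hγ : γ ≠ 0) :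
    ∀ᵐ ω ∂P, ∀ f : C(S1, ℝ),
      Tendsto (fun n => ∫ z, f z * chaosDensity P (fun k ω => (X k ω : ℂ)) γ n ω z ∂arcLength)
        atTop (𝓝 0) := by
  have hν : Integrable (fun x : ℝ => x ^ 2) ν := by
    by_contra hcon
    rw [integral_undef hcon] at hvar
    exact zero_ne_one hvar
  set ξ : ℕ → Ω → ℂ := fun k ω => (X k ω : ℂ) with hξ
  have hm : ∀ k, Measurable (ξ k) := fun k => Complex.measurable_ofReal.comp (hX k)
  have hL2ν : MemLp (fun x : ℝ => (x : ℂ)) 2 ν := by
    rw [← integrable_norm_rpow_iff (Complex.measurable_ofReal).aestronglyMeasurable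
      (by norm_num) (by norm_num)]
    refine hν.congr (ae_of_all _ fun x => ?_)
    simp
  have hL : ∀ k, MemLp (ξ k) 2 P := by
    intro k
    have h1 : MemLp (fun x : ℝ => (x : ℂ)) 2 (P.map (X k)) := by rw [hlaw k]; exact hL2ν
    exact h1.comp_of_map (hX k).aemeasurable
  have hmean' : ∀ k, ∫ ω, ξ k ω ∂P = 0 := by
    intro k
    have h1 : ∫ ω, ξ k ω ∂P = ((∫ ω, X k ω ∂P : ℝ) : ℂ) := by
      rw [hξ]; exact integral_ofReal
    have h2 : ∫ ω, X k ω ∂P = ∫ x, x ∂ν := by
      rw [← hlaw k, integral_map (hX k).aemeasurable (by fun_prop)]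
    rw [h1, h2, hmean]
    simp
  have hind' : iIndepFun ξ P :=
    hind.comp (fun _ x => (x : ℂ)) (fun _ => Complex.measurable_ofReal)
  have hid : ∀ k, IdentDistrib (ξ k) (ξ 0) P P := by
    intro k
    have h1 : IdentDistrib (X k) (X 0) P P :=
      ⟨(hX k).aemeasurable, (hX 0).aemeasurable, by rw [hlaw, hlaw]⟩
    exact h1.comp Complex.measurable_ofReal
  have hdiv : ∀ᵐ z ∂arcLength,
      Tendsto (fun n => ∑ k ∈ Finset.range n, ww P ξ pw k z) atTop atTop := by
    filter_upwards [ae_re_ne] with z hz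
    simp only [hξ, ww_eq P X ν hX hlaw hν]
    exact tendsto_sum_aa ν hν hlog z hz
  have hmain := ae_dens_zero P ξ hm hL hmean' pw norm_pw_le γ arcLength hind' hid hγ hdiv
  filter_upwards [hmain] with ω hω f
  have := hω f
  refine this.congr fun n => ?_
  congr 1
  funext z
  unfold dens chaosDensity
  simp only [PP_pw]

end law

end Pool.Agent.Helper711.ChaosReal
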