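import Mathlib
import Pool.Agent.Helper711.ChaosReal
import Pool.Agent.Helper711.ChaosHolder
import Pool.Agent.Helper711.ChaosLaw

/-!
Existence of the vague limit for real coefficients, and the two main statements about it.
-/

open MeasureTheory ProbabilityTheory Filter Topology Set
open scoped ENNReal NNReal BoundedContinuousFunction

namespace Pool.Agent.Helper711.ChaosExists
open Pool.Agent.Helper711.ChaosDefs Pool.Agent.Helper711.ChaosBase Pool.Agent.Helper711.ChaosReal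
  Pool.Agent.Helper711.ChaosGauss Pool.Agent.Helper711.ChaosHolder Pool.Agent.Helper711.ChaosDim

variable {Ω : Type*} {mΩ : MeasurableSpace Ω} (P : Measure Ω) [IsProbabilityMeasure P]
  (X : ℕ → Ω → ℝ) (ν : Measure ℝ)

omit [IsProbabilityMeasure P] in
lemma moments (hX : ∀ k, Measurable (X k)) (hlaw : ∀ k, P.map (X k) = ν)
    (hmean : ∫ x, x ∂ν = 0) (hvar : ∫ x, x ^ 2 ∂ν = 1) :
    (∀ k, ∫ ω, X k ω ∂P = 0) ∧ (∀ k, ∫ ω, X k ω ^ 2 ∂P = 1) := by
  constructor
  · intro k
    rw [← hmean, ← hlaw k, integral_map (hX k).aemeasurable (by fun_prop)]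
  · intro k
    rw [← hvar, ← hlaw k, integral_map (hX k).aemeasurable (by fun_prop)]

/-- Existence of the almost sure vague limit. -/
theorem exists_chaosLimit (hX : ∀ k, Measurable (X k)) (hind : iIndepFun X P)
    (hlaw : ∀ k, P.map (X k) = ν) (hmean : ∫ x, x ∂ν = 0) (hvar : ∫ x, x ^ 2 ∂ν = 1) (γ : ℝ) :
    ∃ μlim : Ω → FiniteMeasure S1, IsChaosLimit P X γ μlim := by
  obtain ⟨h0, h1⟩ := moments P X ν hX hlaw hmean hvar
  have hm : ∀ k, Measurable (fun ω => (X k ω : ℂ)) := fun k =>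
    Complex.measurable_ofReal.comp (hX k)
  have hind' : iIndepFun (fun k ω => (X k ω : ℂ)) P :=
    hind.comp (fun _ x => (x : ℂ)) (fun _ => Complex.measurable_ofReal)
  have hid : ∀ k, IdentDistrib (fun ω => (X k ω : ℂ)) (fun ω => (X 0 ω : ℂ)) P P := by
    intro k
    have h : IdentDistrib (X k) (X 0) P P :=
      ⟨(hX k).aemeasurable, (hX 0).aemeasurable, by rw [hlaw, hlaw]⟩
    exact h.comp Complex.measurable_ofReal
  have hmean' : ∫ ω, (X 0 ω : ℂ) ∂P = 0 := by
    have h2 : ∫ ω, (X 0 ω : ℂ) ∂P = ((∫ ω, X 0 ω ∂P : ℝ) : ℂ) := integral_ofReal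
    rw [h2, h0 0]; simp
  have hvar' : ∫ ω, ‖(X 0 ω : ℂ)‖ ^ 2 ∂P = 1 := by
    rw [← h1 0]
    congr 1
    funext ω
    rw [Complex.norm_real, Real.norm_eq_abs, sq_abs]
  obtain ⟨μ, μlim, e1, -, -, e4, -⟩ := conv P (fun k ω => (X k ω : ℂ)) hm hind' hid hmean' hvar' γ
  refine ⟨μlim, ?_⟩
  filter_upwards [e4] with ω hω f
  have h3 := (FiniteMeasure.tendsto_iff_forall_integral_tendsto.mp hω)
    (BoundedContinuousFunction.mkOfCompact f)
  refine h3.congr fun n => ?_
  rw [e1 n ω]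
  have hdens : ∀ z, chaosDensity P (fun k ω => (X k ω : ℂ)) γ n ω z = DD X γ n ω z := fun z =>
    chaosDensity_eq P X hX hind h0 h1 γ n ω z
  simp only [hdens]
  have hmz : Measurable (fun z => ENNReal.ofReal (DD X γ n ω z)) :=
    (continuous_DD X γ n ω).measurable.ennreal_ofReal
  rw [integral_withDensity_eq_integral_toReal_smul hmz (ae_of_all _ fun z => by simp)]
  congr 1
  funext z
  rw [ENNReal.toReal_ofReal (DD_pos X γ n ω z).le, smul_eq_mul, mul_comm]
  rfl

/-- Laws with infinite `E ξ² log⁺|ξ|`: the limit is the zero measure. -/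
theorem heavy_limit [IsProbabilityMeasure ν] (hX : ∀ k, Measurable (X k)) (hind : iIndepFun X P)
    (hlaw : ∀ k, P.map (X k) = ν) (hmean : ∫ x, x ∂ν = 0) (hvar : ∫ x, x ^ 2 ∂ν = 1)
    (hlog : ¬ Integrable (fun x : ℝ => x ^ 2 * Real.posLog x) ν) (γ : ℝ) (hγ : γ ≠ 0)
    (μlim : Ω → FiniteMeasure S1) (hlim : IsChaosLimit P X γ μlim) :
    ∀ᵐ ω ∂P, μlim ω = 0 ∧ dimMeasure (μlim ω : Measure S1) = 0 := by
  filter_upwards [hlim, heavy_zero P X ν hX hind hlaw hmean hvar hlog γ hγ] with ω h1 h2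
  have h3 : μlim ω = 0 := by
    have h4 := tendsto_nhds_unique (h1 1) (h2 1)
    simp only [ContinuousMap.one_apply, integral_const, smul_eq_mul, mul_one] at h4
    rw [measureReal_eq_zero_iff] at h4
    apply Subtype.ext
    exact Measure.measure_univ_eq_zero.mp h4
  refine ⟨h3, ?_⟩
  rw [h3]
  exact dimMeasure_zero

/-- Standard Gaussian coefficients: the limit has dimension at least `1/16`. -/
theorem gaussian_limit (hX : ∀ k, Measurable (X k)) (hind : iIndepFun X P)
    (hlaw : ∀ k, P.map (X k) = gaussianReal 0 1) (γ : ℝ) (hγ : 4 * γ ^ 2 ≤ 1 / 2)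
    (μlim : Ω → FiniteMeasure S1) (hlim : IsChaosLimit P X γ μlim) :
    ∀ᵐ ω ∂P, 1 / 16 ≤ dimMeasure (μlim ω : Measure S1) := by
  have hmean : ∫ x, x ∂(gaussianReal 0 1) = 0 := integral_id_gaussianReal
  have hvar : ∫ x, x ^ 2 ∂(gaussianReal 0 1) = 1 := by
    have h := variance_id_gaussianReal (μ := 0) (v := 1)
    rw [variance_of_integral_eq_zero (by fun_prop) (by simp)] at h
    simpa using h
  obtain ⟨h0, h1⟩ := moments P X (gaussianReal 0 1) hX hlaw hmean hvar
  apply gauss_limit P X hX hind hlaw γ hγ μlim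
  filter_upwards [hlim] with ω hω f
  refine (hω f).congr fun n => ?_
  congr 1
  funext z
  rw [chaosDensity_eq P X hX hind h0 h1 γ n ω z]

lemma integral_sq_gaussianReal : ∫ x, x ^ 2 ∂(gaussianReal 0 1) = 1 := by
  have h := variance_id_gaussianReal (μ := 0) (v := 1)
  rw [variance_of_integral_eq_zero (by fun_prop) (by simp [integral_id_gaussianReal])] at h
  simpa using h

end Pool.Agent.Helper711.ChaosExists
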